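import Pool.Agent.TLP.Core

namespace TLP

/-- the integers of the nested intervals -/
noncomputable def lseq (a : ℕ → ℕ) : ℕ → ℤ
  | 0 => 0
  | n + 1 => ⌈(a (n + 1) : ℝ) / a n * ((lseq a n : ℝ) + 1 / 4) - 1 / 4⌉

/-- a sequence of positive integers with ratios at least three is badly approximable along one real -/
theorem lac_three (a : ℕ → ℕ) (h0 : 1 ≤ a 0) (h3 : ∀ n, 3 * a n ≤ a (n + 1)) :
    ∃ α : ℝ, ∀ n, 1 / 4 ≤ dz (a n * α) := by
  have hpos : ∀ n, 1 ≤ a n := by
    intro n
    induction n with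
    | zero => exact h0
    | succ n ih => have := h3 n; omega
  have hpos' : ∀ n, (0 : ℝ) < a n := fun n => by exact_mod_cast hpos n
  have hm : ∀ n, lseq a (n + 1) = ⌈(a (n + 1) : ℝ) / a n * ((lseq a n : ℝ) + 1 / 4) - 1 / 4⌉ := fun n => rfl
  set m := lseq a with hmdef
  let lo : ℕ → ℝ := fun n => (m n + 1 / 4) / a n
  let hi : ℕ → ℝ := fun n => (m n + 3 / 4) / a n
  have hlo : Monotone lo := by
    refine monotone_nat_of_le_succ fun n => ?_
    simp only [lo]
    rw [div_le_div_iff₀ (hpos' n) (hpos' (n + 1))]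
    have h1 : (a (n + 1) : ℝ) / a n * (m n + 1 / 4) - 1 / 4 ≤ m (n + 1) := by
      rw [hm]; exact Int.le_ceil _
    have h2 : (a (n + 1) : ℝ) / a n * (m n + 1 / 4) * a n ≤ (m (n + 1) + 1 / 4) * a n :=
      mul_le_mul_of_nonneg_right (by linarith) (hpos' n).le
    have h3 : (a (n + 1) : ℝ) / a n * (m n + 1 / 4) * a n = (m n + 1 / 4) * a (n + 1) := by
      have := (hpos' n).ne'
      field_simp
    linarith
  have hhi : Antitone hi := by
    refine antitone_nat_of_succ_le fun n => ?_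
    simp only [hi]
    rw [div_le_div_iff₀ (hpos' (n + 1)) (hpos' n)]
    have h1 : (m (n + 1) : ℝ) < (a (n + 1) : ℝ) / a n * (m n + 1 / 4) - 1 / 4 + 1 := by
      rw [hm]; exact Int.ceil_lt_add_one _
    have h2 : ((m (n + 1) : ℝ) + 3 / 4) * a n ≤ ((a (n + 1) : ℝ) / a n * (m n + 1 / 4) + 3 / 2) * a n :=
      mul_le_mul_of_nonneg_right (by linarith) (hpos' n).le
    have h3' : ((a (n + 1) : ℝ) / a n * (m n + 1 / 4) + 3 / 2) * a n
        = (m n + 1 / 4) * a (n + 1) + 3 / 2 * a n := by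
      have := (hpos' n).ne'
      field_simp
    have h4 : (3 : ℝ) * a n ≤ a (n + 1) := by exact_mod_cast h3 n
    linarith
  have hle : lo ≤ hi := by
    intro n
    simp only [lo, hi]
    exact div_le_div_of_nonneg_right (by linarith) (hpos' n).le
  have hmem := Monotone.ciSup_mem_iInter_Icc_of_antitone hlo hhi hle
  refine ⟨⨆ n, lo n, fun n => ?_⟩
  set α := ⨆ n, lo n with hα
  have h1 := Set.mem_iInter.1 hmem n
  have h2 : m n + 1 / 4 ≤ a n * α := by
    have := h1.1
    simp only [lo] at this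
    rw [div_le_iff₀ (hpos' n)] at this
    linarith
  have h3 : a n * α ≤ m n + 3 / 4 := by
    have := h1.2
    simp only [hi] at this
    rw [le_div_iff₀ (hpos' n)] at this
    linarith
  unfold dz
  rcases le_or_gt (round (a n * α)) (m n) with h | h
  · have h' : (round (a n * α) : ℝ) ≤ m n := by exact_mod_cast h
    rw [le_abs]; left; linarith
  · have h' : (m n : ℝ) + 1 ≤ (round (a n * α) : ℝ) := by exact_mod_cast h
    rw [le_abs]; right; linarith

/-- a lacunary sequence is badly approximable along finitely many reals -/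
theorem lac_list (a : ℕ → ℕ) (h0 : 1 ≤ a 0) (r : ℝ) (hr : 1 < r) (ha : ∀ n, r * a n ≤ a (n + 1)) :
    ∃ S : List ℝ, ∀ n, ∃ α ∈ S, 1 / 4 ≤ dz (a n * α) := by
  obtain ⟨t, ht⟩ := pow_unbounded_of_one_lt 3 hr
  have ht0 : 0 < t := by
    rcases Nat.eq_zero_or_pos t with h | h
    · subst h; norm_num at ht
    · exact h
  have hpow : ∀ u n, r ^ u * a n ≤ a (n + u) := by
    intro u
    induction u with
    | zero => intro n; simp
    | succ u ih =>
      intro n
      calc r ^ (u + 1) * a n = r ^ u * (r * a n) := by ring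
        _ ≤ r ^ u * a (n + 1) := mul_le_mul_of_nonneg_left (ha n) (by positivity)
        _ ≤ a (n + 1 + u) := ih (n + 1)
        _ = a (n + (u + 1)) := by rw [show n + 1 + u = n + (u + 1) by ring]
  have hpos : ∀ n, 1 ≤ a n := by
    intro n
    have h1 := hpow n 0
    rw [Nat.zero_add] at h1
    have h2 : (1 : ℝ) ≤ r ^ n := one_le_pow₀ hr.le
    have h3 : (1 : ℝ) ≤ a 0 := by exact_mod_cast h0
    have h4 : (1 : ℝ) ≤ a n := by nlinarith
    exact_mod_cast h4
  have hα : ∀ s : ℕ, ∃ α : ℝ, ∀ n, 1 / 4 ≤ dz (a (s + t * n) * α) := by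
    intro s
    refine lac_three (fun n => a (s + t * n)) (hpos _) fun n => ?_
    have h1 := hpow t (s + t * n)
    have h2 : (0 : ℝ) < a (s + t * n) := by exact_mod_cast hpos _
    have h3 : (3 : ℝ) * a (s + t * n) ≤ a (s + t * n + t) := by nlinarith
    have h4 : s + t * (n + 1) = s + t * n + t := by ring
    simp only [h4]
    exact_mod_cast h3
  choose α hα using hα
  refine ⟨(List.range t).map α, fun n => ⟨α (n % t), ?_, ?_⟩⟩
  · exact List.mem_map.2 ⟨n % t, List.mem_range.2 (Nat.mod_lt _ ht0), rfl⟩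
  · have := hα (n % t) (n / t)
    rwa [Nat.mod_add_div] at this

end TLP
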