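import Mathlib

namespace TLP

open MeasureTheory

theorem vol_small (d : ℕ) (hd : 1 ≤ d) (η : ℝ) (h0 : 0 ≤ η) (h1 : 2 * η ≤ 1) :
    volume {x : UnitAddCircle | ‖d • x‖ ≤ η} = ENNReal.ofReal (2 * η) := by
  have hmp := MeasureTheory.Measure.measurePreserving_zsmul (volume : Measure UnitAddCircle) (n := (d : ℤ))
    (by exact_mod_cast (by omega : d ≠ 0))
  have hs : {x : UnitAddCircle | ‖d • x‖ ≤ η}
      = (fun g : UnitAddCircle => (d : ℤ) • g) ⁻¹' (Metric.closedBall 0 η) := by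
    ext x; simp
  rw [hs, hmp.measure_preimage Metric.isClosed_closedBall.measurableSet.nullMeasurableSet,
    AddCircle.volume_closedBall, min_eq_right h1]

theorem exists_beta (ε : ℝ) (hε : 0 < ε) : ∃ (J : ℕ) (β : Fin J → ℝ) (c : ℝ), 0 < c ∧ c ≤ 1 ∧
    ∀ d : ℕ, 1 ≤ d → ∃ l, c * (d : ℝ) ^ (-ε) ≤ |d * β l - round (d * β l)| := by
  classical
  set J : ℕ := ⌈2 / ε⌉₊ + 1 with hJ
  have hJε : 2 ≤ (J : ℝ) * ε := by
    have h1 : 2 / ε ≤ (J : ℝ) := by
      have := Nat.le_ceil (2 / ε)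
      rw [hJ]; push_cast; linarith
    rwa [div_le_iff₀ hε] at h1
  have hJ1 : 1 ≤ J := by omega
  let E : ℕ → Set (Fin J → UnitAddCircle) := fun d =>
    Set.pi Set.univ (fun _ => {x : UnitAddCircle | ‖(d + 1) • x‖ ≤ (1 / 8) * ((d + 1 : ℕ) : ℝ) ^ (-ε)})
  have hη : ∀ d : ℕ, ((d + 1 : ℕ) : ℝ) ^ (-ε) ≤ 1 := fun d =>
    Real.rpow_le_one_of_one_le_of_nonpos (by push_cast; have : (0:ℝ) ≤ d := by positivity
                                             linarith) (by linarith)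
  have hη0 : ∀ d : ℕ, 0 < ((d + 1 : ℕ) : ℝ) ^ (-ε) := fun d => Real.rpow_pos_of_pos (by positivity) _
  have hvol : ∀ d, volume (E d) ≤ ENNReal.ofReal ((1 / 4) * (1 / ((d + 1 : ℕ) : ℝ) ^ 2)) := by
    intro d
    have h1 : volume (E d) = ENNReal.ofReal (2 * ((1 / 8) * ((d + 1 : ℕ) : ℝ) ^ (-ε))) ^ J := by
      simp only [E]
      rw [volume_pi_pi]
      rw [Finset.prod_congr rfl fun i _ => vol_small (d + 1) (by omega)
        ((1 / 8) * ((d + 1 : ℕ) : ℝ) ^ (-ε)) (by have := hη0 d; positivity)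
        (by have := hη d; linarith)]
      rw [Finset.prod_const, Finset.card_univ, Fintype.card_fin]
    rw [h1, ← ENNReal.ofReal_pow (by have := hη0 d; positivity)]
    refine ENNReal.ofReal_le_ofReal ?_
    have h2 : (2 * ((1 / 8) * ((d + 1 : ℕ) : ℝ) ^ (-ε))) ^ J
        = (1 / 4) ^ J * (((d + 1 : ℕ) : ℝ) ^ (-ε)) ^ J := by
      rw [← mul_pow]; ring_nf
    rw [h2]
    have h3 : ((1 : ℝ) / 4) ^ J ≤ 1 / 4 := by
      calc ((1 : ℝ) / 4) ^ J ≤ (1 / 4) ^ 1 := pow_le_pow_of_le_one (by norm_num) (by norm_num) hJ1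
        _ = 1 / 4 := by norm_num
    have h4 : (((d + 1 : ℕ) : ℝ) ^ (-ε)) ^ J ≤ 1 / ((d + 1 : ℕ) : ℝ) ^ 2 := by
      rw [← Real.rpow_natCast, ← Real.rpow_mul (by positivity), one_div, ← Real.rpow_natCast,
        ← Real.rpow_neg (by positivity)]
      refine Real.rpow_le_rpow_of_exponent_le (by push_cast; have : (0:ℝ) ≤ d := by positivity
                                                  linarith) ?_
      push_cast
      nlinarith
    exact mul_le_mul h3 h4 (by have := hη0 d; positivity) (by norm_num)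
  have hsum : ∑' d : ℕ, (1 / 4) * (1 / ((d + 1 : ℕ) : ℝ) ^ 2) < 1 := by
    have hz := hasSum_zeta_two
    have h2 : ∑' d : ℕ, (1 / ((d + 1 : ℕ) : ℝ) ^ 2) = Real.pi ^ 2 / 6 := by
      have h3 := hz.summable.tsum_eq_zero_add
      rw [hz.tsum_eq] at h3
      simp only [Nat.cast_zero] at h3
      rw [h3]; simp
    rw [tsum_mul_left, h2]
    have := Real.pi_lt_d2
    have h0 := Real.pi_pos
    nlinarith
  have hsummable : Summable (fun d : ℕ => (1 / 4 : ℝ) * (1 / ((d + 1 : ℕ) : ℝ) ^ 2)) := by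
    refine Summable.mul_left _ ?_
    have := (summable_nat_add_iff 1).2 hasSum_zeta_two.summable
    exact this
  have hU : volume (⋃ d, E d) < 1 := by
    calc volume (⋃ d, E d) ≤ ∑' d, volume (E d) := measure_iUnion_le _
      _ ≤ ∑' d, ENNReal.ofReal ((1 / 4) * (1 / ((d + 1 : ℕ) : ℝ) ^ 2)) := ENNReal.tsum_le_tsum hvol
      _ = ENNReal.ofReal (∑' d : ℕ, (1 / 4) * (1 / ((d + 1 : ℕ) : ℝ) ^ 2)) :=
          (ENNReal.ofReal_tsum_of_nonneg (fun d => by positivity) hsummable).symm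
      _ < 1 := by rw [ENNReal.ofReal_lt_one]; exact hsum
  have hne : (⋃ d, E d) ≠ Set.univ := by
    intro h
    have h1 : volume (Set.univ : Set (Fin J → UnitAddCircle)) = 1 := by
      rw [← Set.pi_univ Set.univ, volume_pi_pi]
      simp [UnitAddCircle.measure_univ]
    rw [h, h1] at hU
    exact lt_irrefl _ hU
  obtain ⟨b, hb⟩ := (Set.ne_univ_iff_exists_notMem _).1 hne
  simp only [Set.mem_iUnion, not_exists] at hb
  have hrep : ∀ l, ∃ y : ℝ, (y : UnitAddCircle) = b l := fun l => by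
    obtain ⟨y, hy⟩ := QuotientAddGroup.mk_surjective (b l)
    exact ⟨y, hy⟩
  choose β hβ using hrep
  refine ⟨J, β, 1 / 8, by norm_num, by norm_num, fun d hd => ?_⟩
  obtain ⟨e, rfl⟩ : ∃ e, d = e + 1 := ⟨d - 1, by omega⟩
  have h1 := hb e
  simp only [E, Set.mem_pi, Set.mem_univ, Set.mem_ofPred_eq, forall_true_left, not_forall] at h1
  obtain ⟨l, hl⟩ := h1
  refine ⟨l, ?_⟩
  push Not at hl
  have h2 : (e + 1) • b l = (((e + 1 : ℕ) * β l : ℝ) : UnitAddCircle) := by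
    rw [← hβ l, ← nsmul_eq_mul]; rfl
  rw [h2, UnitAddCircle.norm_eq] at hl
  exact hl.le

end TLP
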