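import Pool.Agent.TLP.Core
import Pool.Agent.TLP.Dio

namespace TLP

open Finset Polynomial

theorem colouring (ε : ℝ) (hε : 0 < ε) (k : ℕ) (p : Fin k → ℝ[X]) (δ : ℝ) (hδ : 0 < δ) (L : ℕ) :
    ∃ (K : ℕ) (Ψ : ℤ → Bool), ∀ d : ℕ, 1 ≤ d → ∀ b : Bool,
      (∀ M : ℕ, K ≤ M → (d : ℝ) ^ ε ≤ M → ¬ ∃ a : ℤ, ∀ j < M, Ψ (a + j * d) = b) ∧
      ((¬ ∃ x : ℤ, ∀ j < L, ∀ i, dz ((p i).eval (((x + j * d : ℤ)) : ℝ) - (p i).eval (x : ℝ)) < δ) →
        ¬ ∃ a : ℤ, ∀ j < K, Ψ (a + j * d) = b) := by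
  classical
  obtain ⟨J, β, c, hc0, hc1, hβ⟩ := exists_beta (ε / 2) (by linarith)
  -- degree bound
  set s : ℕ := (∑ i, (p i).natDegree) + 1 with hs
  have hs1 : 1 ≤ s := by omega
  have hdegp : ∀ i, (p i).natDegree ≤ s := by
    intro i
    have := Finset.single_le_sum (f := fun i => (p i).natDegree) (fun i _ => Nat.zero_le _) (Finset.mem_univ i)
    omega
  have hs0 : (0 : ℝ) < s := by exact_mod_cast hs1
  obtain ⟨Φ, Q, A, hA, hcore⟩ := core (k + J) s hs1
  obtain ⟨Λ, hΛ, hbΛ⟩ := exists_bound s (L : ℝ)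
  have hΛ0 : 0 < Λ := by linarith
  set N : ℕ := Q.factorial ^ s * Den s with hN
  have hN1 : 1 ≤ N := by
    have h1 := Den_pos s
    have h2 := Nat.factorial_pos Q
    have : 0 < N := by rw [hN]; positivity
    omega
  have hN0 : (0 : ℝ) < N := by exact_mod_cast hN1
  let P : Fin (k + J) → ℝ[X] :=
    Fin.addCases (fun i => C (1 / (N : ℝ)) * p i) (fun l => C (β l) * X)
  have hPl : ∀ i : Fin k, P (Fin.castAdd J i) = C (1 / (N : ℝ)) * p i := fun i => by
    simp only [P, Fin.addCases_left]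
  have hPr : ∀ l : Fin J, P (Fin.natAdd k l) = C (β l) * X := fun l => by
    simp only [P, Fin.addCases_right]
  have hPdeg : ∀ i, (P i).natDegree ≤ s := by
    intro i
    refine Fin.addCases (motive := fun i => (P i).natDegree ≤ s) (fun i => ?_) (fun l => ?_) i
    · rw [hPl]; exact (natDegree_C_mul_le _ _).trans (hdegp i)
    · rw [hPr]
      exact ((natDegree_C_mul_le _ _).trans natDegree_X_le).trans hs1
  set h1 : ℝ := min 1 (δ / (2 * N * s * Λ)) with hh1
  have hh10 : 0 < h1 := lt_min one_pos (by positivity)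
  have hh11 : h1 ≤ 1 := min_le_left _ _
  have hh12 : h1 ≤ δ / (2 * N * s * Λ) := min_le_right _ _
  set B : ℝ := (A / c) * ((Q + 1 : ℕ) : ℝ) ^ (ε / 2) with hB
  have hB0 : 0 < B := by positivity
  set K : ℕ := ⌊max (B ^ 2) (A / h1)⌋₊ + 1 with hK
  have hKgt : max (B ^ 2) (A / h1) < K := by
    rw [hK]; push_cast; exact Nat.lt_floor_add_one _
  have hKB : B ^ 2 < K := lt_of_le_of_lt (le_max_left _ _) hKgt
  have hKA : A / h1 < K := lt_of_le_of_lt (le_max_right _ _) hKgt
  refine ⟨K, fun n => Φ (fun i => (P i).eval (n : ℝ)), fun d hd b => ?_⟩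
  have hd0 : (0 : ℝ) < d := by exact_mod_cast hd
  -- general consequence of the core
  have hmain : ∀ h : ℝ, 0 < h → h ≤ 1 → ∀ M : ℕ, A / h < M → ∀ a : ℤ,
      (∀ j < M, Φ (fun i => (P i).eval (((a + j * d : ℤ)) : ℝ)) = b) →
      ∃ j0 q : ℕ, j0 ≤ Q ∧ 1 ≤ q ∧ q ≤ Q ∧ ∀ i, ∀ l ≤ s,
        dz ((P i).eval (a + d * ((j0 + l * q : ℕ) : ℝ)) - (P i).eval (a + d * (j0 : ℝ))) < h := by
    intro h hh0 hh M hM a hmono
    by_contra hcon
    push Not at hcon
    let G : Fin (k + J) → ℝ[X] := fun i => (P i).comp (C (a : ℝ) + C (d : ℝ) * X)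
    have hG : ∀ i (t : ℝ), (G i).eval t = (P i).eval (a + d * t) := by
      intro i t
      simp only [G, eval_comp, eval_add, eval_mul, eval_C, eval_X]
    have hGdeg : ∀ i, (G i).natDegree ≤ s := by
      intro i
      refine (natDegree_comp_le).trans ?_
      have : (C (a : ℝ) + C (d : ℝ) * X : ℝ[X]).natDegree ≤ 1 := by
        rw [add_comm]; exact natDegree_linear_le
      calc (P i).natDegree * (C (a : ℝ) + C (d : ℝ) * X : ℝ[X]).natDegree ≤ s * 1 :=
            Nat.mul_le_mul (hPdeg i) this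
        _ = s := mul_one s
    obtain ⟨j, hj, hne⟩ := hcore G hGdeg h hh0 hh (fun j0 q h1 h2 h3 => by
      obtain ⟨i, l, hl, hle⟩ := hcon j0 q h1 h2 h3
      exact ⟨i, l, hl, by rw [hG, hG]; exact hle⟩) b
    have hjM : j < M := by
      have : (j : ℝ) < M := lt_of_le_of_lt hj hM
      exact_mod_cast this
    apply hne
    rw [← hmono j hjM]
    congr 1
    funext i
    rw [hG]
    congr 1
    push_cast
    ring
  constructor
  · -- all differences
    rintro M hMK hMd ⟨a, hmono⟩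
    set h2 : ℝ := c * (((Q + 1 : ℕ) : ℝ) * d) ^ (-(ε / 2)) with hh2
    have hQd : (1 : ℝ) ≤ ((Q + 1 : ℕ) : ℝ) * d := by
      have h1 : (1 : ℝ) ≤ ((Q + 1 : ℕ) : ℝ) := by exact_mod_cast Nat.succ_le_succ (Nat.zero_le Q)
      have h2 : (1 : ℝ) ≤ d := by exact_mod_cast hd
      nlinarith
    have hQd0 : (0 : ℝ) < ((Q + 1 : ℕ) : ℝ) * d := by linarith
    have hh20 : 0 < h2 := by rw [hh2]; exact mul_pos hc0 (Real.rpow_pos_of_pos hQd0 _)
    have hh21 : h2 ≤ 1 := by
      rw [hh2]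
      have : (((Q + 1 : ℕ) : ℝ) * d) ^ (-(ε / 2)) ≤ 1 :=
        Real.rpow_le_one_of_one_le_of_nonpos hQd (by linarith)
      have h3 : 0 ≤ (((Q + 1 : ℕ) : ℝ) * d) ^ (-(ε / 2)) := (Real.rpow_pos_of_pos hQd0 _).le
      calc c * (((Q + 1 : ℕ) : ℝ) * d) ^ (-(ε / 2)) ≤ 1 * 1 := mul_le_mul hc1 this h3 (by norm_num)
        _ = 1 := one_mul 1
    have hAh2 : A / h2 < M := by
      have e1 : A / h2 = B * (d : ℝ) ^ (ε / 2) := by
        rw [hh2, hB, Real.mul_rpow (by positivity) hd0.le, Real.rpow_neg (by positivity),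
          Real.rpow_neg hd0.le]
        have h3 : ((Q + 1 : ℕ) : ℝ) ^ (ε / 2) ≠ 0 := by positivity
        have h4 : (d : ℝ) ^ (ε / 2) ≠ 0 := by positivity
        field_simp
      rw [e1]
      set y : ℝ := (d : ℝ) ^ (ε / 2) with hy
      have hy0 : 0 < y := by rw [hy]; positivity
      have hyy : y * y = (d : ℝ) ^ ε := by
        rw [hy, ← Real.rpow_add hd0]; congr 1; ring
      have hMK' : (K : ℝ) ≤ M := by exact_mod_cast hMK
      rcases lt_or_ge B y with h3 | h3
      · have : B * y < y * y := mul_lt_mul_of_pos_right h3 hy0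
        linarith
      · have : B * y ≤ B * B := mul_le_mul_of_nonneg_left h3 hB0.le
        nlinarith
    obtain ⟨j0, q, hj0, hq1, hqQ, hall⟩ := hmain h2 hh20 hh21 M hAh2 a hmono
    obtain ⟨l, hl⟩ := hβ (q * d) (Nat.mul_pos hq1 hd)
    have h3 := hall (Fin.natAdd k l) 1 hs1
    rw [hPr] at h3
    simp only [eval_mul, eval_C, eval_X] at h3
    have h4 : β l * (a + d * ((j0 + 1 * q : ℕ) : ℝ)) - β l * (a + d * (j0 : ℝ))
        = ((q * d : ℕ) : ℝ) * β l := by push_cast; ring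
    rw [h4] at h3
    unfold dz at h3
    have h5 : h2 ≤ c * ((q * d : ℕ) : ℝ) ^ (-(ε / 2)) := by
      rw [hh2]
      refine mul_le_mul_of_nonneg_left ?_ hc0.le
      refine Real.rpow_le_rpow_of_nonpos ?_ ?_ (by linarith)
      · have : 0 < q * d := Nat.mul_pos hq1 hd
        exact_mod_cast this
      · have : q * d ≤ (Q + 1) * d := Nat.mul_le_mul_right _ (by omega)
        exact_mod_cast this
    linarith
  · -- non recurrent differences
    rintro hbad ⟨a, hmono⟩
    obtain ⟨j0, q, hj0, hq1, hqQ, hall⟩ := hmain h1 hh10 hh11 K hKA a hmono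
    refine hbad ⟨a + j0 * d, fun t ht i => ?_⟩
    have hq0 : (0 : ℝ) < q := by exact_mod_cast hq1
    let Hp : ℝ[X] := (p i).comp (C ((a : ℝ) + d * j0) + C ((d : ℝ) * q) * X) - C ((p i).eval ((a : ℝ) + d * j0))
    have hHdeg : Hp.natDegree ≤ s := by
      refine (natDegree_sub_le _ _).trans ?_
      rw [natDegree_C]
      refine max_le ?_ (Nat.zero_le _)
      refine (natDegree_comp_le).trans ?_
      have : (C ((a : ℝ) + d * j0) + C ((d : ℝ) * q) * X : ℝ[X]).natDegree ≤ 1 := by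
        rw [add_comm]; exact natDegree_linear_le
      calc (p i).natDegree * (C ((a : ℝ) + d * j0) + C ((d : ℝ) * q) * X : ℝ[X]).natDegree ≤ s * 1 :=
            Nat.mul_le_mul (hdegp i) this
        _ = s := mul_one s
    have hHeval : ∀ y : ℝ, Hp.eval y = (p i).eval (a + d * j0 + d * q * y) - (p i).eval ((a : ℝ) + d * j0) := by
      intro y
      simp only [Hp, eval_sub, eval_comp, eval_add, eval_mul, eval_C, eval_X]
    have h2 := interp' s Hp hHdeg (by rw [hHeval]; simp) ((t : ℝ) / q)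
    rw [hHeval] at h2
    -- node values
    have hnode : ∀ l : ℕ, l ≤ s → ∃ (n : ℤ) (e : ℝ), |e| < h1 ∧ Hp.eval (l : ℝ) = N * (n + e) := by
      intro l hl
      have h3 := hall (Fin.castAdd J i) l hl
      rw [hPl] at h3
      simp only [eval_mul, eval_C] at h3
      have h4 : 1 / (N : ℝ) * (p i).eval (a + d * ((j0 + l * q : ℕ) : ℝ)) - 1 / (N : ℝ) * (p i).eval (a + d * (j0 : ℝ))
          = Hp.eval (l : ℝ) / N := by
        rw [hHeval]
        have : (a : ℝ) + d * ((j0 + l * q : ℕ) : ℝ) = a + d * j0 + d * q * l := by push_cast; ring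
        rw [this]; ring
      rw [h4] at h3
      refine ⟨round (Hp.eval (l : ℝ) / N), Hp.eval (l : ℝ) / N - round (Hp.eval (l : ℝ) / N), h3, ?_⟩
      rw [add_sub_cancel, mul_div_cancel₀ _ hN0.ne']
    choose! n e he using hnode
    have hint : ∀ l ∈ Icc 1 s, ∃ z : ℤ, Hp.eval (l : ℝ) * (lam s l).eval ((t : ℝ) / q)
        = z + N * (e l * (lam s l).eval ((t : ℝ) / q)) := by
      intro l hl
      have hls := (Finset.mem_Icc.1 hl).2
      obtain ⟨w, hw⟩ := lam_int_div s Q q hq1 hqQ l hls (t : ℤ)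
      rw [← hN, Int.cast_natCast] at hw
      refine ⟨n l * w, ?_⟩
      rw [(he l hls).2, Int.cast_mul, ← hw]
      ring
    choose! z hz using hint
    rw [Finset.sum_congr rfl hz, Finset.sum_add_distrib] at h2
    have hcast1 : (((a + j0 * d + t * d : ℤ)) : ℝ) = a + d * j0 + d * q * (t / q) := by
      push_cast; field_simp
    have hcast2 : (((a + j0 * d : ℤ)) : ℝ) = a + d * j0 := by push_cast; ring
    rw [hcast1, hcast2, h2]
    refine lt_of_le_of_lt (dz_le_of _ (∑ l ∈ Icc 1 s, z l)) ?_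
    push_cast
    rw [add_sub_cancel_left]
    calc |∑ l ∈ Icc 1 s, (N : ℝ) * (e l * (lam s l).eval ((t : ℝ) / q))|
        ≤ ∑ l ∈ Icc 1 s, |(N : ℝ) * (e l * (lam s l).eval ((t : ℝ) / q))| :=
          Finset.abs_sum_le_sum_abs _ _
      _ ≤ ∑ l ∈ Icc 1 s, (N : ℝ) * (h1 * Λ) := by
          refine Finset.sum_le_sum fun l hl => ?_
          have hls := (Finset.mem_Icc.1 hl).2
          rw [abs_mul, abs_mul, abs_of_pos hN0]
          refine mul_le_mul_of_nonneg_left ?_ hN0.le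
          refine mul_le_mul (he l hls).1.le (hbΛ l hls _ ⟨by positivity, ?_⟩) (abs_nonneg _) hh10.le
          rw [div_le_iff₀ hq0]
          have h5 : (t : ℝ) ≤ L := by exact_mod_cast ht.le
          have h6 : (1 : ℝ) ≤ q := by exact_mod_cast hq1
          have h7 : (0 : ℝ) ≤ L := by positivity
          nlinarith
      _ = s * N * Λ * h1 := by
          rw [Finset.sum_const, Nat.card_Icc, nsmul_eq_mul]
          simp only [Nat.add_sub_cancel]
          ring
      _ ≤ s * N * Λ * (δ / (2 * N * s * Λ)) := mul_le_mul_of_nonneg_left hh12 (by positivity)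
      _ = δ / 2 := by field_simp
      _ < δ := by linarith

end TLP
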