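import Mathlib

namespace TLP

open Finset

/-- Finite form of van der Waerden's theorem (from Hales-Jewett). -/
theorem vdw (κ : Type) [Finite κ] (s : ℕ) : ∃ Q : ℕ, ∀ c : ℕ → κ, ∃ j0 q : ℕ,
    j0 ≤ Q ∧ 1 ≤ q ∧ q ≤ Q ∧ ∀ l ≤ s, c (j0 + l * q) = c j0 := by
  classical
  obtain ⟨ι, _, hι⟩ := Combinatorics.Line.exists_mono_in_high_dimension (Fin (s + 1)) κ
  refine ⟨(s + 1) * Fintype.card ι, fun c => ?_⟩
  obtain ⟨l, c0, hl⟩ := hι (fun v => c (∑ i, (v i : ℕ)))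
  set q := (univ.filter (fun i => l.idxFun i = none)).card with hq
  set j0 := ∑ i, (((l.idxFun i).getD 0 : Fin (s + 1)) : ℕ) with hj0
  have hsum : ∀ x : Fin (s + 1), ∑ i, ((l x i : Fin (s + 1)) : ℕ) = j0 + x * q := by
    intro x
    have h1 : ∀ i, ((l x i : Fin (s + 1)) : ℕ)
        = (((l.idxFun i).getD 0 : Fin (s + 1)) : ℕ) + (if l.idxFun i = none then (x : ℕ) else 0) := by
      intro i
      rw [Combinatorics.Line.coe_apply]
      cases h : l.idxFun i <;> simp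
    rw [Finset.sum_congr rfl fun i _ => h1 i, Finset.sum_add_distrib, ← Finset.sum_filter,
      Finset.sum_const, smul_eq_mul, mul_comm (x : ℕ)]
  have hmono : ∀ x : Fin (s + 1), c (j0 + x * q) = c0 := fun x => by
    rw [← hsum x]; exact hl x
  refine ⟨j0, q, ?_, ?_, ?_, fun t ht => ?_⟩
  · have : j0 ≤ ∑ _i : ι, s := by
      refine Finset.sum_le_sum fun i _ => ?_
      have := ((l.idxFun i).getD 0 : Fin (s + 1)).2
      omega
    rw [Finset.sum_const, Finset.card_univ, smul_eq_mul] at this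
    nlinarith
  · obtain ⟨i, hi⟩ := l.proper
    exact Finset.card_pos.2 ⟨i, by simp [hi]⟩
  · have : q ≤ Fintype.card ι := Finset.card_le_univ _
    nlinarith
  · have h1 := hmono ⟨t, by omega⟩
    have h2 := hmono 0
    simp only [Fin.val_zero, zero_mul, add_zero] at h2
    rw [h2]; exact h1

/-- Discrete intermediate value theorem. -/
theorem ivt_up (a : ℕ → ℤ) (n : ℕ) (h : ∀ j < n, |a (j + 1) - a j| ≤ 1) (v : ℤ)
    (h0 : a 0 ≤ v) (hn : v ≤ a n) : ∃ j ≤ n, a j = v := by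
  induction n with
  | zero => exact ⟨0, le_rfl, le_antisymm h0 hn⟩
  | succ n ih =>
    by_cases hv : v ≤ a n
    · obtain ⟨j, hj, hjv⟩ := ih (fun j hj => h j (by omega)) hv
      exact ⟨j, by omega, hjv⟩
    · have := abs_le.1 (h n (by omega))
      exact ⟨n + 1, le_rfl, by omega⟩

theorem ivt_down (a : ℕ → ℤ) (n : ℕ) (h : ∀ j < n, |a (j + 1) - a j| ≤ 1) (v : ℤ)
    (h0 : v ≤ a 0) (hn : a n ≤ v) : ∃ j ≤ n, a j = v := by
  obtain ⟨j, hj, hjv⟩ := ivt_up (fun j => - a j) n (fun j hj => by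
    have := h j hj
    rw [show -a (j + 1) - -a j = -(a (j + 1) - a j) by ring, abs_neg]; exact this) (-v)
    (by omega) (by omega)
  exact ⟨j, hj, by omega⟩

/-- A real sequence with steps of size `< 1` that moves by at least `R` meets all residue classes
modulo `R` with its integer parts. -/
theorem all_residues (R : ℕ) (hR : 1 ≤ R) (y : ℕ → ℝ) (n : ℕ)
    (h : ∀ j < n, |y (j + 1) - y j| < 1) (hm : (R : ℝ) ≤ |y n - y 0|) (r : ZMod R) :
    ∃ j ≤ n, ((⌊y j⌋ : ℤ) : ZMod R) = r := by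
  have : NeZero R := ⟨by omega⟩
  have hstep : ∀ j < n, |⌊y (j + 1)⌋ - ⌊y j⌋| ≤ 1 := by
    intro j hj
    have h1 := abs_lt.1 (h j hj)
    rw [abs_le]
    constructor
    · have : (⌊y j⌋ : ℝ) - 1 < (⌊y (j + 1)⌋ : ℝ) + 1 := by
        have := Int.floor_le (y j); have := Int.lt_floor_add_one (y (j + 1)); linarith
      have : ⌊y j⌋ - 1 < ⌊y (j + 1)⌋ + 1 := by exact_mod_cast this
      omega
    · have : (⌊y (j + 1)⌋ : ℝ) - 1 < (⌊y j⌋ : ℝ) + 1 := by
        have := Int.floor_le (y (j + 1)); have := Int.lt_floor_add_one (y j); linarith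
      have : ⌊y (j + 1)⌋ - 1 < ⌊y j⌋ + 1 := by exact_mod_cast this
      omega
  rcases le_abs.1 hm with h1 | h1
  · -- increasing
    have h2 : ⌊y 0⌋ + R ≤ ⌊y n⌋ := by
      rw [Int.le_floor]; push_cast; have := Int.floor_le (y 0); linarith
    set k : ℤ := ((r - ((⌊y 0⌋ : ℤ) : ZMod R)).val : ℤ) with hk
    have hk0 : 0 ≤ k := by positivity
    have hkR : k < R := by
      have := ZMod.val_lt (r - ((⌊y 0⌋ : ℤ) : ZMod R))
      rw [hk]; exact_mod_cast this
    obtain ⟨j, hj, hjv⟩ := ivt_up (fun j => ⌊y j⌋) n hstep (⌊y 0⌋ + k) (by omega) (by omega)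
    refine ⟨j, hj, ?_⟩
    rw [hjv]
    push_cast
    rw [hk]
    simp
  · have h2 : ⌊y n⌋ ≤ ⌊y 0⌋ - R := by
      have : y n < (⌊y 0⌋ - R : ℤ) + 1 := by
        push_cast; have := Int.lt_floor_add_one (y 0); linarith
      have h3 := Int.floor_le (y n)
      have : (⌊y n⌋ : ℝ) < ((⌊y 0⌋ - R : ℤ) : ℝ) + 1 := lt_of_le_of_lt h3 this
      have : ⌊y n⌋ < ⌊y 0⌋ - R + 1 := by exact_mod_cast this
      omega
    set k : ℤ := (((((⌊y 0⌋ : ℤ) : ZMod R)) - r).val : ℤ) with hk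
    have hk0 : 0 ≤ k := by positivity
    have hkR : k < R := by
      have := ZMod.val_lt ((((⌊y 0⌋ : ℤ) : ZMod R)) - r)
      rw [hk]; exact_mod_cast this
    obtain ⟨j, hj, hjv⟩ := ivt_down (fun j => ⌊y j⌋) n hstep (⌊y 0⌋ - k) (by omega) (by omega)
    refine ⟨j, hj, ?_⟩
    rw [hjv]
    push_cast
    rw [hk]
    simp

end TLP
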