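import Pool.Agent.TLP.Phi
import Pool.Agent.TLP.Vdw

namespace TLP

open Finset Polynomial

/-- distance to the nearest integer -/
noncomputable def dz (x : ℝ) : ℝ := |x - round x|

theorem dz_le_of (x : ℝ) (n : ℤ) : dz x ≤ |x - n| := round_le x n

theorem dz_zero : dz 0 = 0 := by simp [dz]

theorem dz_add_int (x : ℝ) (n : ℤ) : dz (x + n) = dz x := by
  unfold dz; rw [round_add_intCast]; push_cast; ring_nf

theorem sum_lam (s : ℕ) (y : ℝ) : ∑ l ∈ range (s + 1), (lam s l).eval y = 1 := by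
  have := interp s (1 : ℝ[X]) (by simp) y
  simp only [eval_one, one_mul] at this
  exact this.symm

/-- same residue of the floors gives small difference modulo one -/
theorem near_of_floor (R : ℕ) (hR : 1 ≤ R) (a b : ℝ)
    (h : ((⌊(R : ℝ) * a⌋ : ℤ) : ZMod R) = ((⌊(R : ℝ) * b⌋ : ℤ) : ZMod R)) :
    ∃ (n : ℤ) (e : ℝ), |e| < 1 / R ∧ a = b + n + e := by
  have h1 := (ZMod.intCast_eq_intCast_iff_dvd_sub _ _ _).1 h
  obtain ⟨z, hz⟩ := h1
  have hR0 : (0 : ℝ) < R := by exact_mod_cast hR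
  refine ⟨-z, (Int.fract ((R : ℝ) * a) - Int.fract ((R : ℝ) * b)) / R, ?_, ?_⟩
  · rw [abs_div, abs_of_pos hR0]
    refine div_lt_div_of_pos_right ?_ hR0
    have h2 := Int.fract_nonneg ((R : ℝ) * a)
    have h3 := Int.fract_lt_one ((R : ℝ) * a)
    have h4 := Int.fract_nonneg ((R : ℝ) * b)
    have h5 := Int.fract_lt_one ((R : ℝ) * b)
    rw [abs_lt]; constructor <;> linarith
  · have h2 : (⌊(R : ℝ) * b⌋ : ℝ) - ⌊(R : ℝ) * a⌋ = R * z := by exact_mod_cast hz
    have h3 := Int.floor_add_fract ((R : ℝ) * a)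
    have h4 := Int.floor_add_fract ((R : ℝ) * b)
    have h5 : (R : ℝ) * a = R * (b + ((-z : ℤ) : ℝ) + (Int.fract ((R : ℝ) * a) - Int.fract ((R : ℝ) * b)) / R) := by
      rw [mul_add, mul_add, mul_div_cancel₀ _ hR0.ne']
      push_cast
      linarith
    exact mul_left_cancel₀ hR0.ne' h5

theorem core (m s : ℕ) (hs : 1 ≤ s) : ∃ (Φ : (Fin m → ℝ) → Bool) (Q : ℕ) (A : ℝ), 0 < A ∧
    ∀ (G : Fin m → ℝ[X]), (∀ i, (G i).natDegree ≤ s) → ∀ h : ℝ, 0 < h → h ≤ 1 →
    (∀ j0 q : ℕ, j0 ≤ Q → 1 ≤ q → q ≤ Q → ∃ i, ∃ l ≤ s,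
      h ≤ dz ((G i).eval ((j0 + l * q : ℕ) : ℝ) - (G i).eval (j0 : ℝ))) →
    ∀ b : Bool, ∃ j : ℕ, (j : ℝ) ≤ A / h ∧ Φ (fun i => (G i).eval (j : ℝ)) ≠ b := by
  classical
  obtain ⟨C0, hC0, hb0⟩ := exists_bound s (2 * s)
  obtain ⟨C1, hC1, hb1⟩ := exists_lip s (2 * s)
  have hs0 : (0 : ℝ) < s := by exact_mod_cast hs
  -- constants
  set w0 : ℕ := ⌈(s : ℝ) ^ 2 * C0 * C1⌉₊ with hw0
  set b0 : ℕ := ⌈1 + (s : ℝ) ^ 2 * C0 ^ 2⌉₊ with hb0'
  have hw0' : (s : ℝ) ^ 2 * C0 * C1 ≤ w0 := Nat.le_ceil _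
  have hb0'' : 1 + (s : ℝ) ^ 2 * C0 ^ 2 ≤ b0 := Nat.le_ceil _
  obtain ⟨R, hR, φ, hφ⟩ := exists_phi m s w0 b0
  have hR0 : (0 : ℝ) < R := by exact_mod_cast hR
  set W := R * w0 + 1 with hW
  have hW1 : 1 ≤ W := by omega
  have hW0 : (0 : ℝ) < W := by exact_mod_cast hW1
  set D0 := Den s with hD0
  have hD1 : 1 ≤ D0 := Den_pos s
  obtain ⟨Λ, hΛ, hbΛ⟩ := exists_bound s ((D0 * W * s : ℕ) : ℝ)
  set R' : ℕ := ⌊(s : ℝ) * Λ⌋₊ + 1 with hR'
  have hR'1 : (s : ℝ) * Λ < R' := by rw [hR']; push_cast; exact Nat.lt_floor_add_one _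
  have hR'2 : 1 ≤ R' := by omega
  have hR'0 : (0 : ℝ) < R' := by exact_mod_cast hR'2
  have : NeZero R' := ⟨by omega⟩
  obtain ⟨Q, hQ⟩ := vdw (Fin m → ZMod R') s
  refine ⟨fun g => φ (fun i => ((⌊(R : ℝ) * g i⌋ : ℤ) : ZMod R)), Q,
    (Q : ℝ) + Q * (D0 * (s * W)) * ((s : ℝ) ^ 2 * C1 + 1) + 1, by positivity, ?_⟩
  intro G hG h hh hh1 hfar b
  obtain ⟨j0, q, hj0, hq1, hqQ, hmono⟩ := hQ (fun t i => ((⌊(R' : ℝ) * (G i).eval (t : ℝ)⌋ : ℤ) : ZMod R'))
  -- small differences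
  have hne : ∀ i : Fin m, ∀ l : ℕ, ∃ (n : ℤ) (e : ℝ), l ≤ s → (|e| < 1 / R' ∧
      (G i).eval ((j0 + l * q : ℕ) : ℝ) = (G i).eval (j0 : ℝ) + n + e) := by
    intro i l
    by_cases hl : l ≤ s
    · obtain ⟨n, e, he⟩ := near_of_floor R' hR'2 _ _ (congrFun (hmono l hl) i)
      exact ⟨n, e, fun _ => he⟩
    · exact ⟨0, 0, fun h => absurd h hl⟩
  choose nn ee hne using hne
  -- the slow curve
  let γ : Fin m → ℝ[X] := fun i => ∑ l ∈ Icc 1 s, C (ee i l) * lam s l
  have hγdeg : ∀ i, (γ i).natDegree ≤ s := by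
    intro i
    refine natDegree_sum_le_of_forall_le _ _ fun l hl => ?_
    exact (natDegree_C_mul_le _ _).trans (natDegree_lam s l (Finset.mem_Icc.1 hl).2)
  have hγeval : ∀ i y, (γ i).eval y = ∑ l ∈ Icc 1 s, ee i l * (lam s l).eval y := by
    intro i y
    simp only [γ, eval_finsetSum, eval_mul, eval_C]
  have hγ0 : ∀ i, (γ i).eval 0 = 0 := by
    intro i
    rw [hγeval]
    refine Finset.sum_eq_zero fun l hl => ?_
    rw [lam_zero s l (Finset.mem_Icc.1 hl).1 (Finset.mem_Icc.1 hl).2, mul_zero]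
  have hγnode : ∀ i, ∀ l, 1 ≤ l → l ≤ s → (γ i).eval (l : ℝ) = ee i l := by
    intro i l hl1 hls
    rw [hγeval, Finset.sum_eq_single l]
    · rw [lam_node s l l hls hls]; simp
    · intro l' hl' hne'
      rw [lam_node s l' l (Finset.mem_Icc.1 hl').2 hls, if_neg hne', mul_zero]
    · intro h'; exact absurd (Finset.mem_Icc.2 ⟨hl1, hls⟩) h'
  -- interpolation of γ at the nodes τ l
  have hγint : ∀ i, ∀ τ : ℝ, ∀ y : ℝ, (γ i).eval (τ * y)
      = ∑ l ∈ Icc 1 s, (γ i).eval (τ * l) * (lam s l).eval y := by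
    intro i τ y
    have hdeg : ((γ i).comp (C τ * X)).natDegree ≤ s := by
      refine (natDegree_comp_le).trans ?_
      calc (γ i).natDegree * (C τ * X : ℝ[X]).natDegree ≤ s * 1 :=
            Nat.mul_le_mul (hγdeg i) ((natDegree_C_mul_le _ _).trans natDegree_X_le)
        _ = s := mul_one s
    have := interp' s ((γ i).comp (C τ * X)) hdeg (by simp [hγ0]) y
    simpa [eval_comp] using this
  -- Big
  let Big : ℕ → Prop := fun u => 1 ≤ u ∧ ∃ i, ∃ l, 1 ≤ l ∧ l ≤ s ∧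
    1 ≤ |(γ i).eval (((D0 * W * u : ℕ) : ℝ) * l)|
  have hBigex : ∀ u : ℕ, (s : ℝ) ^ 2 * C1 / h < u → Big u := by
    intro u hu
    have hu0 : (0 : ℝ) < u := lt_of_le_of_lt (by positivity) hu
    have hu1 : 1 ≤ u := by exact_mod_cast hu0
    by_contra hnb
    have hall : ∀ i, ∀ l, 1 ≤ l → l ≤ s → |(γ i).eval (((D0 * W * u : ℕ) : ℝ) * l)| < 1 := by
      intro i l h1 h2
      by_contra h3
      push Not at h3
      exact hnb ⟨hu1, i, l, h1, h2, h3⟩
    obtain ⟨i, l, hls, hfl⟩ := hfar j0 q hj0 hq1 hqQ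
    have hl1 : 1 ≤ l := by
      by_contra h0
      have : l = 0 := by omega
      subst this
      simp only [zero_mul, add_zero, sub_self, dz_zero] at hfl
      linarith
    have he : h ≤ |ee i l| := by
      refine hfl.trans ?_
      have h1 := (hne i l hls).2
      rw [h1]
      have := dz_le_of ((G i).eval (j0 : ℝ) + nn i l + ee i l - (G i).eval (j0 : ℝ)) (nn i l)
      refine this.trans (le_of_eq ?_)
      congr 1; ring
    rw [← hγnode i l hl1 hls] at he
    set τ : ℝ := ((D0 * W * u : ℕ) : ℝ) with hτ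
    have hτu : (u : ℝ) ≤ τ := by
      rw [hτ]
      exact_mod_cast Nat.le_mul_of_pos_left u (by positivity)
    have hτ0 : 0 < τ := lt_of_lt_of_le hu0 hτu
    have hu1R : (1 : ℝ) ≤ u := by exact_mod_cast hu1
    have hlR : (l : ℝ) ≤ s := by exact_mod_cast hls
    have hlτ : (l : ℝ) / τ ≤ s := by
      rw [div_le_iff₀ hτ0]
      have : (s : ℝ) * 1 ≤ s * τ := mul_le_mul_of_nonneg_left (hu1R.trans hτu) hs0.le
      linarith
    have h2 : |(γ i).eval (l : ℝ)| ≤ (s : ℝ) ^ 2 * C1 / u := by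
      have h3 := hγint i τ (l / τ)
      rw [mul_div_cancel₀ _ hτ0.ne'] at h3
      rw [h3]
      calc |∑ l' ∈ Icc 1 s, (γ i).eval (τ * l') * (lam s l').eval (l / τ)|
          ≤ ∑ l' ∈ Icc 1 s, |(γ i).eval (τ * l') * (lam s l').eval (l / τ)| :=
            Finset.abs_sum_le_sum_abs _ _
        _ ≤ ∑ l' ∈ Icc 1 s, C1 * ((s : ℝ) / u) := by
            refine Finset.sum_le_sum fun l' hl' => ?_
            have hl'1 := (Finset.mem_Icc.1 hl').1
            have hl's := (Finset.mem_Icc.1 hl').2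
            rw [abs_mul]
            have h4 := (hall i l' hl'1 hl's).le
            have h5 := hb1 l' hl's (l / τ) ⟨by positivity, hlτ.trans (by linarith)⟩ 0
              ⟨le_rfl, by positivity⟩
            rw [lam_zero s l' hl'1 hl's, sub_zero, sub_zero, abs_of_nonneg (by positivity : 0 ≤ (l : ℝ) / τ)] at h5
            have h6 : (l : ℝ) / τ ≤ s / u := div_le_div₀ hs0.le hlR hu0 hτu
            calc |(γ i).eval (τ * l')| * |(lam s l').eval (l / τ)| ≤ 1 * (C1 * (s / u)) :=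
                  mul_le_mul h4 (h5.trans (mul_le_mul_of_nonneg_left h6 (by linarith)))
                    (abs_nonneg _) (by norm_num)
              _ = C1 * (s / u) := one_mul _
        _ = (s : ℝ) ^ 2 * C1 / u := by
            rw [Finset.sum_const, Nat.card_Icc, nsmul_eq_mul]
            simp only [Nat.add_sub_cancel]
            field_simp
    have h7 : (s : ℝ) ^ 2 * C1 / u < h := by
      rw [div_lt_iff₀ hu0]
      rw [div_lt_iff₀ hh] at hu
      linarith
    linarith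
  have hex : ∃ u, Big u := ⟨⌊(s : ℝ) ^ 2 * C1 / h⌋₊ + 1, hBigex _ (by push_cast; exact Nat.lt_floor_add_one _)⟩
  obtain ⟨hu1, i0, l0, hl01, hl0s, hbig⟩ := Nat.find_spec hex
  set u := Nat.find hex with hudef
  have hule : (u : ℝ) ≤ (s : ℝ) ^ 2 * C1 / h + 1 := by
    have h1 : u ≤ ⌊(s : ℝ) ^ 2 * C1 / h⌋₊ + 1 :=
      Nat.find_min' hex (hBigex _ (by push_cast; exact Nat.lt_floor_add_one _))
    have h2 : ((⌊(s : ℝ) ^ 2 * C1 / h⌋₊ : ℕ) : ℝ) ≤ (s : ℝ) ^ 2 * C1 / h := Nat.floor_le (by positivity)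
    have h3 : (u : ℝ) ≤ ((⌊(s : ℝ) ^ 2 * C1 / h⌋₊ + 1 : ℕ) : ℝ) := by exact_mod_cast h1
    push_cast at h3
    linarith
  have hnot1 : ∀ i, ∀ l, 1 ≤ l → l ≤ s → |(γ i).eval (((D0 * W * 1 : ℕ) : ℝ) * l)| < 1 := by
    intro i l hl1 hls
    rw [hγeval]
    have hcast : ((D0 * W * 1 : ℕ) : ℝ) * l = ((D0 * W * l : ℕ) : ℝ) := by push_cast; ring
    have hle : ((D0 * W * l : ℕ) : ℝ) ≤ ((D0 * W * s : ℕ) : ℝ) := by
      exact_mod_cast Nat.mul_le_mul_left _ hls
    calc |∑ l' ∈ Icc 1 s, ee i l' * (lam s l').eval (((D0 * W * 1 : ℕ) : ℝ) * l)|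
        ≤ ∑ l' ∈ Icc 1 s, |ee i l' * (lam s l').eval (((D0 * W * 1 : ℕ) : ℝ) * l)| :=
          Finset.abs_sum_le_sum_abs _ _
      _ ≤ ∑ l' ∈ Icc 1 s, 1 / R' * Λ := by
          refine Finset.sum_le_sum fun l' hl' => ?_
          have hl's := (Finset.mem_Icc.1 hl').2
          rw [abs_mul, hcast]
          exact mul_le_mul (hne i l' hl's).1.le (hbΛ l' hl's _ ⟨by positivity, hle⟩)
            (abs_nonneg _) (by positivity)
      _ = s * Λ / R' := by
          rw [Finset.sum_const, Nat.card_Icc, nsmul_eq_mul]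
          simp only [Nat.add_sub_cancel]
          ring
      _ < 1 := by rw [div_lt_one hR'0]; exact hR'1
  have hu2 : 2 ≤ u := by
    by_contra hlt
    have h1 : u = 1 := by omega
    rw [h1] at hbig
    exact absurd hbig (not_le.2 (hnot1 i0 l0 hl01 hl0s))
  have hprev : ∀ i, ∀ l, 1 ≤ l → l ≤ s → |(γ i).eval (((D0 * W * (u - 1) : ℕ) : ℝ) * l)| < 1 := by
    intro i l h1 h2
    have h3 := Nat.find_min hex (m := u - 1) (by omega)
    by_contra h4
    push Not at h4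
    exact h3 ⟨by omega, i, l, h1, h2, h4⟩
  set τ : ℝ := ((D0 * W * u : ℕ) : ℝ) with hτ
  have hτ0 : 0 < τ := by rw [hτ]; positivity
  have hnode : ∀ i, ∀ l, 1 ≤ l → l ≤ s → |(γ i).eval (τ * l)| ≤ s * C0 := by
    intro i l hl1 hls
    set τ' : ℝ := ((D0 * W * (u - 1) : ℕ) : ℝ) with hτ'
    have hτ'0 : 0 < τ' := by
      rw [hτ']
      have : 0 < u - 1 := by omega
      positivity
    have hτ2 : τ ≤ 2 * τ' := by
      rw [hτ, hτ']
      have : D0 * W * u ≤ 2 * (D0 * W * (u - 1)) := by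
        calc D0 * W * u ≤ D0 * W * (2 * (u - 1)) := Nat.mul_le_mul_left _ (by omega)
          _ = 2 * (D0 * W * (u - 1)) := by ring
      exact_mod_cast this
    have hlR : (l : ℝ) ≤ s := by exact_mod_cast hls
    have h1 := hγint i τ' (τ / τ' * l)
    rw [show τ' * (τ / τ' * l) = τ * l by field_simp] at h1
    rw [h1]
    have hy : τ / τ' * l ∈ Set.Icc (0 : ℝ) (2 * s) := by
      refine ⟨by positivity, ?_⟩
      have : τ / τ' ≤ 2 := by rw [div_le_iff₀ hτ'0]; exact hτ2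
      exact mul_le_mul this hlR (by positivity) (by norm_num)
    calc |∑ l' ∈ Icc 1 s, (γ i).eval (τ' * l') * (lam s l').eval (τ / τ' * l)|
        ≤ ∑ l' ∈ Icc 1 s, |(γ i).eval (τ' * l') * (lam s l').eval (τ / τ' * l)| :=
          Finset.abs_sum_le_sum_abs _ _
      _ ≤ ∑ l' ∈ Icc 1 s, C0 := by
          refine Finset.sum_le_sum fun l' hl' => ?_
          have hl'1 := (Finset.mem_Icc.1 hl').1
          have hl's := (Finset.mem_Icc.1 hl').2
          rw [abs_mul]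
          calc _ ≤ 1 * C0 := mul_le_mul (hprev i l' hl'1 hl's).le (hb0 l' hl's _ hy)
                (abs_nonneg _) (by norm_num)
            _ = C0 := one_mul _
      _ = s * C0 := by
          rw [Finset.sum_const, Nat.card_Icc, nsmul_eq_mul]
          simp only [Nat.add_sub_cancel]
  -- the sampled curve
  have hρ : ∀ i, ∀ j : ℕ, (γ i).eval (((D0 * u * j : ℕ) : ℝ))
      = ∑ l ∈ Icc 1 s, (γ i).eval (τ * l) * (lam s l).eval ((j : ℝ) / W) := by
    intro i j
    have h1 := hγint i τ ((j : ℝ) / W)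
    rw [← h1]
    congr 1
    rw [hτ]; push_cast; field_simp
  -- node values
  let Hp : Fin m → ℝ[X] := fun i => (G i).comp (C (j0 : ℝ) + C (q : ℝ) * X)
  have hHdeg : ∀ i, (Hp i).natDegree ≤ s := by
    intro i
    refine (natDegree_comp_le).trans ?_
    have : (C (j0 : ℝ) + C (q : ℝ) * X : ℝ[X]).natDegree ≤ 1 := by
      rw [add_comm]; exact natDegree_linear_le
    calc (G i).natDegree * (C (j0 : ℝ) + C (q : ℝ) * X : ℝ[X]).natDegree ≤ s * 1 :=
          Nat.mul_le_mul (hG i) this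
      _ = s := mul_one s
  have hHeval : ∀ i, ∀ t : ℕ, (Hp i).eval (t : ℝ) = (G i).eval ((j0 + q * t : ℕ) : ℝ) := by
    intro i t
    simp only [Hp, eval_comp, eval_add, eval_mul, eval_C, eval_X]
    push_cast; rfl
  let c : Fin m → ℕ → ℝ := fun i l => Int.fract ((Hp i).eval 0) + (γ i).eval (τ * l)
  have hval : ∀ i, ∀ j : ℕ, val s W (c i) j
      = Int.fract ((Hp i).eval 0) + (γ i).eval (((D0 * u * j : ℕ) : ℝ)) := by
    intro i j
    unfold val
    simp only [c, add_mul, Finset.sum_add_distrib]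
    rw [← Finset.mul_sum, sum_lam, mul_one, hρ]
    congr 1
    rw [Finset.sum_range_succ']
    simp only [Nat.cast_zero, mul_zero, hγ0, zero_mul, add_zero]
    rw [Finset.range_eq_Ico,
      Finset.sum_Ico_add' (fun l => (γ i).eval (τ * ((l : ℕ) : ℝ)) * (lam s l).eval ((j : ℝ) / W)) 0 s 1]
    refine Finset.sum_congr ?_ fun _ _ => rfl
    ext x; simp
  -- relation between the polynomial and the slow curve
  have hrel : ∀ i, ∀ j : ℕ, ∃ z : ℤ, (Hp i).eval (((D0 * u * j : ℕ) : ℝ))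
      = val s W (c i) j + z := by
    intro i j
    rw [hval]
    have hdeg : (Hp i - C ((Hp i).eval 0)).natDegree ≤ s := by
      refine (natDegree_sub_le _ _).trans ?_
      simp [hHdeg i]
    have h1 := interp' s (Hp i - C ((Hp i).eval 0)) hdeg (by simp) (((D0 * u * j : ℕ) : ℝ))
    simp only [eval_sub, eval_C] at h1
    have h2 : ∀ l ∈ Icc 1 s, ∃ z : ℤ, ((Hp i).eval (l : ℝ) - (Hp i).eval 0) *
        (lam s l).eval (((D0 * u * j : ℕ) : ℝ)) = ee i l * (lam s l).eval (((D0 * u * j : ℕ) : ℝ)) + z := by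
      intro l hl
      have hl1 := (Finset.mem_Icc.1 hl).1
      have hls := (Finset.mem_Icc.1 hl).2
      obtain ⟨z, hz⟩ := lam_int s l hl1 hls (D0 * u * j) ⟨u * j, by rw [hD0]; ring⟩
      refine ⟨nn i l * z, ?_⟩
      have h3 : (Hp i).eval (l : ℝ) - (Hp i).eval 0 = nn i l + ee i l := by
        rw [hHeval]
        have h4 := hHeval i 0
        simp only [Nat.cast_zero, mul_zero, add_zero] at h4
        rw [h4]
        have h5 := (hne i l hls).2
        rw [mul_comm q l, h5]; ring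
      rw [h3, add_mul, hz, Int.cast_mul]
      ring
    choose! z hz using h2
    refine ⟨⌊(Hp i).eval 0⌋ + ∑ l ∈ Icc 1 s, z l, ?_⟩
    have h6 := Int.floor_add_fract ((Hp i).eval 0)
    rw [Finset.sum_congr rfl hz, Finset.sum_add_distrib, ← hγeval] at h1
    push_cast
    have h7 : (Hp i).eval (((D0 * u * j : ℕ) : ℝ)) = (Hp i).eval 0 +
        ((γ i).eval (((D0 * u * j : ℕ) : ℝ)) + ∑ l ∈ Icc 1 s, (z l : ℝ)) := by linarith
    push_cast at h7
    rw [h7]
    nth_rewrite 1 [← h6]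
    ring
  -- bound
  have hjW : ∀ j ≤ s * W, (j : ℝ) / W ∈ Set.Icc (0 : ℝ) (2 * s) := by
    intro j hj
    refine ⟨by positivity, ?_⟩
    rw [div_le_iff₀ hW0]
    have : (j : ℝ) ≤ ((s * W : ℕ) : ℝ) := by exact_mod_cast hj
    push_cast at this
    nlinarith [mul_pos hs0 hW0]
  have hbnd : ∀ i, ∀ j ≤ s * W, |(R : ℝ) * val s W (c i) j| ≤ R * b0 := by
    intro i j hj
    rw [abs_mul, abs_of_pos hR0]
    refine mul_le_mul_of_nonneg_left ?_ hR0.le
    rw [hval, hρ]
    have h1 := Int.fract_nonneg ((Hp i).eval 0)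
    have h2 := Int.fract_lt_one ((Hp i).eval 0)
    have h3 : |∑ l ∈ Icc 1 s, (γ i).eval (τ * l) * (lam s l).eval ((j : ℝ) / W)|
        ≤ (s : ℝ) ^ 2 * C0 ^ 2 := by
      calc _ ≤ ∑ l ∈ Icc 1 s, |(γ i).eval (τ * l) * (lam s l).eval ((j : ℝ) / W)| :=
            Finset.abs_sum_le_sum_abs _ _
        _ ≤ ∑ l ∈ Icc 1 s, (s * C0) * C0 := by
            refine Finset.sum_le_sum fun l hl => ?_
            have hl1 := (Finset.mem_Icc.1 hl).1
            have hls := (Finset.mem_Icc.1 hl).2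
            rw [abs_mul]
            exact mul_le_mul (hnode i l hl1 hls) (hb0 l hls _ (hjW j hj)) (abs_nonneg _)
              (by positivity)
        _ = (s : ℝ) ^ 2 * C0 ^ 2 := by
            rw [Finset.sum_const, Nat.card_Icc, nsmul_eq_mul]
            simp only [Nat.add_sub_cancel]
            ring
    have h4 := abs_le.1 h3
    rw [abs_le]
    constructor <;> linarith
  have hsurj : ∃ i, ∀ r : ZMod R, ∃ j ≤ s * W, cell m s W R c j i = r := by
    refine ⟨i0, fun r => ?_⟩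
    have hstep : ∀ j < W * l0, |(R : ℝ) * val s W (c i0) (j + 1) - R * val s W (c i0) j| < 1 := by
      intro j hj
      have hjs : j + 1 ≤ s * W := by
        have : W * l0 ≤ s * W := by rw [mul_comm]; exact Nat.mul_le_mul_right _ hl0s
        omega
      rw [hval, hval, hρ, hρ, ← mul_sub, add_sub_add_left_eq_sub, ← Finset.sum_sub_distrib, abs_mul,
        abs_of_pos hR0]
      have h1 : |∑ l ∈ Icc 1 s, ((γ i0).eval (τ * l) * (lam s l).eval (((j + 1 : ℕ) : ℝ) / W)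
          - (γ i0).eval (τ * l) * (lam s l).eval ((j : ℝ) / W))| ≤ (s : ℝ) ^ 2 * C0 * C1 / W := by
        calc _ ≤ ∑ l ∈ Icc 1 s, |(γ i0).eval (τ * l) * (lam s l).eval (((j + 1 : ℕ) : ℝ) / W)
          - (γ i0).eval (τ * l) * (lam s l).eval ((j : ℝ) / W)| := Finset.abs_sum_le_sum_abs _ _
          _ ≤ ∑ l ∈ Icc 1 s, (s * C0) * (C1 * (1 / W)) := by
              refine Finset.sum_le_sum fun l hl => ?_
              have hl1 := (Finset.mem_Icc.1 hl).1
              have hls := (Finset.mem_Icc.1 hl).2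
              rw [← mul_sub, abs_mul]
              have h2 := hb1 l hls _ (hjW (j + 1) hjs) _ (hjW j (by omega))
              have h3 : |((j + 1 : ℕ) : ℝ) / W - (j : ℝ) / W| = 1 / W := by
                rw [← sub_div]; push_cast
                rw [add_sub_cancel_left, abs_of_pos (by positivity)]
              rw [h3] at h2
              exact mul_le_mul (hnode i0 l hl1 hls) h2 (abs_nonneg _) (by positivity)
          _ = (s : ℝ) ^ 2 * C0 * C1 / W := by
              rw [Finset.sum_const, Nat.card_Icc, nsmul_eq_mul]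
              simp only [Nat.add_sub_cancel]
              ring
      calc (R : ℝ) * _ ≤ R * ((s : ℝ) ^ 2 * C0 * C1 / W) := mul_le_mul_of_nonneg_left h1 hR0.le
        _ ≤ R * (w0 / W) := by
            refine mul_le_mul_of_nonneg_left ?_ hR0.le
            exact div_le_div_of_nonneg_right hw0' hW0.le
        _ < 1 := by
            rw [← mul_div_assoc, div_lt_one hW0, hW]
            push_cast
            linarith
    have htot : (R : ℝ) ≤ |(R : ℝ) * val s W (c i0) (W * l0) - R * val s W (c i0) 0| := by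
      rw [hval, hval, ← mul_sub, abs_mul, abs_of_pos hR0, add_sub_add_left_eq_sub]
      simp only [mul_zero, Nat.cast_zero, hγ0, sub_zero]
      have h1 : ((D0 * u * (W * l0) : ℕ) : ℝ) = τ * l0 := by rw [hτ]; push_cast; ring
      rw [h1]
      calc (R : ℝ) = R * 1 := (mul_one _).symm
        _ ≤ _ := mul_le_mul_of_nonneg_left hbig hR0.le
    obtain ⟨j, hj, hjr⟩ := all_residues R hR (fun j => (R : ℝ) * val s W (c i0) j) (W * l0)
      hstep htot r
    refine ⟨j, ?_, hjr⟩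
    have : W * l0 ≤ s * W := by rw [mul_comm]; exact Nat.mul_le_mul_right _ hl0s
    omega
  obtain ⟨j, hj, hjb⟩ := hφ c hbnd hsurj b
  refine ⟨j0 + q * (D0 * u * j), ?_, ?_⟩
  · -- the bound on the time
    have h1 : j0 + q * (D0 * u * j) ≤ Q + Q * (D0 * (s * W)) * u := by
      have h2 : q * (D0 * u * j) ≤ Q * (D0 * u * (s * W)) :=
        Nat.mul_le_mul hqQ (Nat.mul_le_mul_left _ hj)
      have h3 : Q * (D0 * u * (s * W)) = Q * (D0 * (s * W)) * u := by ring
      omega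
    have h2 : ((j0 + q * (D0 * u * j) : ℕ) : ℝ) ≤ (Q : ℝ) + Q * (D0 * (s * W)) * u := by
      exact_mod_cast h1
    refine h2.trans ?_
    rw [le_div_iff₀ hh]
    have h4 : (u : ℝ) * h ≤ (s : ℝ) ^ 2 * C1 + 1 := by
      have h5 : (u : ℝ) * h ≤ ((s : ℝ) ^ 2 * C1 / h + 1) * h := mul_le_mul_of_nonneg_right hule hh.le
      have h6 : ((s : ℝ) ^ 2 * C1 / h + 1) * h = (s : ℝ) ^ 2 * C1 + h := by field_simp
      linarith
    have h7 : (Q : ℝ) * h ≤ Q := by
      calc (Q : ℝ) * h ≤ Q * 1 := mul_le_mul_of_nonneg_left hh1 (by positivity)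
        _ = Q := mul_one _
    have h8 : (Q : ℝ) * (D0 * (s * W)) * (u * h) ≤ Q * (D0 * (s * W)) * ((s : ℝ) ^ 2 * C1 + 1) :=
      mul_le_mul_of_nonneg_left h4 (by positivity)
    nlinarith
  · have hfun : (fun i => ((⌊(R : ℝ) * (G i).eval ((j0 + q * (D0 * u * j) : ℕ) : ℝ)⌋ : ℤ) : ZMod R))
        = cell m s W R c j := by
      funext i
      obtain ⟨z, hz⟩ := hrel i j
      have h1 := hHeval i (D0 * u * j)
      rw [← h1, hz]
      unfold cell
      have : (R : ℝ) * (val s W (c i) j + z) = R * val s W (c i) j + ((R * z : ℤ) : ℝ) := by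
        push_cast; ring
      rw [this, Int.floor_add_intCast]
      push_cast
      simp
    show φ _ ≠ b
    rw [hfun]
    exact hjb

end TLP
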