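import Mathlib

namespace TLP

open Finset Polynomial

/-- Lagrange basis at the nodes `0, 1, ..., s`. -/
noncomputable def lam (s l : ℕ) : ℝ[X] :=
  Lagrange.basis (range (s + 1)) (fun i : ℕ => (i : ℝ)) l

theorem lam_eval (s l : ℕ) (y : ℝ) :
    (lam s l).eval y = ∏ j ∈ (range (s + 1)).erase l, (((l : ℝ) - j)⁻¹ * (y - j)) := by
  unfold lam Lagrange.basis Lagrange.basisDivisor
  rw [eval_prod]
  refine Finset.prod_congr rfl fun j _ => by simp

theorem interp (s : ℕ) (P : ℝ[X]) (hP : P.natDegree ≤ s) (y : ℝ) :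
    P.eval y = ∑ l ∈ range (s + 1), P.eval (l : ℝ) * (lam s l).eval y := by
  have hinj : Set.InjOn (fun i : ℕ => (i : ℝ)) (range (s + 1)) := fun a _ b _ h =>
    Nat.cast_injective h
  have hdeg : P.degree < #(range (s + 1)) := by
    rw [card_range]
    exact (degree_le_natDegree).trans_lt (by exact_mod_cast Nat.lt_succ_of_le hP)
  have h := Lagrange.eq_interpolate hinj hdeg
  conv_lhs => rw [h]
  rw [Lagrange.interpolate_apply, eval_finsetSum]
  refine Finset.sum_congr rfl fun l _ => ?_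
  rw [eval_mul, eval_C]
  rfl

theorem interp' (s : ℕ) (P : ℝ[X]) (hP : P.natDegree ≤ s) (h0 : P.eval 0 = 0) (y : ℝ) :
    P.eval y = ∑ l ∈ Finset.Icc 1 s, P.eval (l : ℝ) * (lam s l).eval y := by
  rw [interp s P hP y, Finset.sum_range_succ']
  simp only [Nat.cast_zero, h0, zero_mul, add_zero]
  rw [Finset.range_eq_Ico, Finset.sum_Ico_add' (fun l => P.eval ((l : ℕ) : ℝ) * (lam s l).eval y) 0 s 1]
  refine Finset.sum_congr ?_ fun _ _ => rfl
  ext x; simp

theorem lam_zero (s l : ℕ) (hl : 1 ≤ l) (_hs : l ≤ s) : (lam s l).eval 0 = 0 := by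
  rw [lam_eval]
  refine Finset.prod_eq_zero (i := 0) ?_ (by simp)
  simp; omega

theorem natDegree_lam (s l : ℕ) (hs : l ≤ s) : (lam s l).natDegree ≤ s := by
  have hinj : Set.InjOn (fun i : ℕ => (i : ℝ)) (range (s + 1)) := fun a _ b _ h =>
    Nat.cast_injective h
  unfold lam
  have := Lagrange.natDegree_basis hinj (i := l) (by simp; omega)
  rw [this]; simp

theorem lam_node (s l i : ℕ) (hl : l ≤ s) (hi : i ≤ s) :
    (lam s l).eval (i : ℝ) = if l = i then 1 else 0 := by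
  have hinj : Set.InjOn (fun i : ℕ => (i : ℝ)) (range (s + 1)) := fun a _ b _ h =>
    Nat.cast_injective h
  unfold lam
  split_ifs with h
  · subst h
    exact Lagrange.eval_basis_self hinj (by simp; omega)
  · exact Lagrange.eval_basis_of_ne (v := fun i : ℕ => (i : ℝ)) h (by simp; omega)

/-- the denominator of `lam s l` -/
def den (s l : ℕ) : ℤ := ∏ j ∈ (range (s + 1)).erase l, ((l : ℤ) - j)

theorem den_ne_zero (s l : ℕ) : den s l ≠ 0 := by
  unfold den
  rw [Finset.prod_ne_zero_iff]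
  intro j hj
  have := (Finset.mem_erase.1 hj).1
  omega

/-- common denominator -/
def Den (s : ℕ) : ℕ := ∏ l ∈ range (s + 1), (den s l).natAbs

theorem Den_pos (s : ℕ) : 1 ≤ Den s := by
  unfold Den
  refine Nat.one_le_iff_ne_zero.2 ?_
  rw [Finset.prod_ne_zero_iff]
  intro l _
  exact Int.natAbs_ne_zero.2 (den_ne_zero s l)

theorem den_dvd (s l : ℕ) (hl : l ≤ s) : den s l ∣ (Den s : ℤ) := by
  rw [← Int.natAbs_dvd]
  exact_mod_cast Finset.dvd_prod_of_mem (fun l => (den s l).natAbs) (by simp; omega : l ∈ range (s+1))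

theorem lam_eval_den (s l : ℕ) (y : ℝ) :
    (den s l : ℝ) * (lam s l).eval y = ∏ j ∈ (range (s + 1)).erase l, (y - j) := by
  rw [lam_eval, Finset.prod_mul_distrib]
  unfold den
  push_cast
  rw [← mul_assoc, ← Finset.prod_mul_distrib]
  have : ∏ j ∈ (range (s + 1)).erase l, (((l : ℝ) - j) * ((l : ℝ) - j)⁻¹) = 1 := by
    refine Finset.prod_eq_one fun j hj => ?_
    refine mul_inv_cancel₀ ?_
    have := (Finset.mem_erase.1 hj).1
    rw [sub_ne_zero]
    exact_mod_cast this.symm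
  rw [this, one_mul]

theorem lam_int (s l : ℕ) (hl : 1 ≤ l) (hs : l ≤ s) (X : ℕ) (hX : Den s ∣ X) :
    ∃ n : ℤ, (lam s l).eval (X : ℝ) = n := by
  have h1 := lam_eval_den s l (X : ℝ)
  have h0 : (0 : ℕ) ∈ (range (s + 1)).erase l := by simp; omega
  have hd : den s l ∣ (X : ℤ) := (den_dvd s l hs).trans (by exact_mod_cast hX)
  obtain ⟨m, hm⟩ := hd
  rw [← Finset.mul_prod_erase _ _ h0] at h1
  refine ⟨m * ∏ j ∈ ((range (s + 1)).erase l).erase 0, ((X : ℤ) - j), ?_⟩
  have hne : (den s l : ℝ) ≠ 0 := by exact_mod_cast den_ne_zero s l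
  have hmR : (X : ℝ) = (den s l : ℝ) * m := by exact_mod_cast hm
  refine mul_left_cancel₀ hne ?_
  rw [h1]
  push_cast
  rw [← mul_assoc, ← hmR]
  simp

theorem lam_int_div (s Q : ℕ) (q : ℕ) (hq : 1 ≤ q) (hqQ : q ≤ Q) (l : ℕ) (hs : l ≤ s) (t : ℤ) :
    ∃ n : ℤ, (((Q.factorial ^ s * Den s : ℕ) : ℝ)) * (lam s l).eval ((t : ℝ) / q) = n := by
  have h1 := lam_eval_den s l ((t : ℝ) / q)
  obtain ⟨a, ha⟩ : q ^ s ∣ Q.factorial ^ s := pow_dvd_pow_of_dvd (Nat.dvd_factorial hq hqQ) s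
  obtain ⟨b, hb⟩ := den_dvd s l hs
  have hq0 : (q : ℝ) ≠ 0 := by positivity
  have hcard : #((range (s + 1)).erase l) = s := by
    rw [Finset.card_erase_of_mem (by simp; omega)]; simp
  have h2 : (q : ℝ) ^ s * ∏ j ∈ (range (s + 1)).erase l, ((t : ℝ) / q - j)
      = ∏ j ∈ (range (s + 1)).erase l, ((t : ℝ) - q * j) := by
    have : (q : ℝ) ^ s = ∏ j ∈ (range (s + 1)).erase l, (q : ℝ) := by
      rw [Finset.prod_const, hcard]
    rw [this, ← Finset.prod_mul_distrib]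
    refine Finset.prod_congr rfl fun j _ => ?_
    field_simp
  refine ⟨a * b * ∏ j ∈ (range (s + 1)).erase l, (t - q * j), ?_⟩
  have hbR : ((Den s : ℕ) : ℝ) = (den s l : ℝ) * b := by exact_mod_cast hb
  have haR : ((Q.factorial ^ s : ℕ) : ℝ) = (q : ℝ) ^ s * a := by exact_mod_cast ha
  rw [Nat.cast_mul, haR, hbR]
  push_cast
  calc (q : ℝ) ^ s * a * ((den s l : ℝ) * b) * (lam s l).eval ((t : ℝ) / q)
      = a * b * ((q : ℝ) ^ s * ((den s l : ℝ) * (lam s l).eval ((t : ℝ) / q))) := by ring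
    _ = _ := by rw [h1, h2]

theorem exists_bound (s : ℕ) (B : ℝ) :
    ∃ C : ℝ, 1 ≤ C ∧ ∀ l ≤ s, ∀ y ∈ Set.Icc 0 B, |(lam s l).eval y| ≤ C := by
  have h : ∀ l : ℕ, ∃ C : ℝ, ∀ y ∈ Set.Icc 0 B, |(lam s l).eval y| ≤ C := by
    intro l
    obtain ⟨C, hC⟩ := isCompact_Icc.exists_bound_of_continuousOn
      (s := Set.Icc 0 B) (f := fun y => (lam s l).eval y) (lam s l).continuous.continuousOn
    exact ⟨C, fun y hy => by simpa using hC y hy⟩
  choose C hC using h
  refine ⟨1 + ∑ l ∈ range (s + 1), |C l|, ?_, fun l hl y hy => ?_⟩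
  · have : 0 ≤ ∑ l ∈ range (s + 1), |C l| := Finset.sum_nonneg fun _ _ => abs_nonneg _
    linarith
  · have h1 := hC l y hy
    have h2 : |C l| ≤ ∑ l ∈ range (s + 1), |C l| :=
      Finset.single_le_sum (f := fun l => |C l|) (fun _ _ => abs_nonneg _) (by simp; omega)
    have h3 := le_abs_self (C l)
    linarith

theorem exists_lip (s : ℕ) (B : ℝ) :
    ∃ C : ℝ, 1 ≤ C ∧ ∀ l ≤ s, ∀ y ∈ Set.Icc 0 B, ∀ y' ∈ Set.Icc 0 B,
      |(lam s l).eval y - (lam s l).eval y'| ≤ C * |y - y'| := by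
  have h : ∀ l : ℕ, ∃ C : ℝ, ∀ y ∈ Set.Icc 0 B, ∀ y' ∈ Set.Icc 0 B,
      |(lam s l).eval y - (lam s l).eval y'| ≤ C * |y - y'| := by
    intro l
    obtain ⟨C, hC⟩ := isCompact_Icc.exists_bound_of_continuousOn
      (s := Set.Icc 0 B) (f := fun y => (derivative (lam s l)).eval y)
      (derivative (lam s l)).continuous.continuousOn
    refine ⟨C, fun y hy y' hy' => ?_⟩
    have := Convex.norm_image_sub_le_of_norm_deriv_le (f := fun y => (lam s l).eval y) (C := C)
      (s := Set.Icc 0 B) (x := y') (y := y)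
      (fun x _ => (lam s l).differentiableAt) (fun x hx => by
        rw [Polynomial.deriv]; exact hC x hx) (convex_Icc 0 B) hy' hy
    simpa using this
  choose C hC using h
  refine ⟨1 + ∑ l ∈ range (s + 1), |C l|, ?_, fun l hl y hy y' hy' => ?_⟩
  · have : 0 ≤ ∑ l ∈ range (s + 1), |C l| := Finset.sum_nonneg fun _ _ => abs_nonneg _
    linarith
  · have h1 := hC l y hy y' hy'
    have h2 : |C l| ≤ ∑ l ∈ range (s + 1), |C l| :=
      Finset.single_le_sum (f := fun l => |C l|) (fun _ _ => abs_nonneg _) (by simp; omega)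
    have h3 := le_abs_self (C l)
    exact h1.trans (mul_le_mul_of_nonneg_right (by linarith) (abs_nonneg _))

end TLP
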