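import Mathlib

namespace TLP

open Finset

/-- If the affine sign patterns shatter a set, the set has at most as many elements as there are
parameters. -/
theorem shatter_card {ι κ : Type*} [DecidableEq ι] [Fintype κ]
    (A : ι → κ → ℝ) (b : ι → ℝ) (𝒜 : Finset (Finset ι))
    (h𝒜 : ∀ S ∈ 𝒜, ∃ c : κ → ℝ, ∀ i, i ∈ S ↔ b i ≤ ∑ k, A i k * c k)
    (T : Finset ι) (hT : 𝒜.Shatters T) : T.card ≤ Fintype.card κ := by
  classical
  by_contra hlt
  push Not at hlt
  have hnl : ¬ LinearIndependent ℝ (fun i : T => A i) := by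
    intro hli
    have h1 := hli.fintype_card_le_finrank
    simp only [Fintype.card_coe, Module.finrank_fintype_fun_eq_card] at h1
    omega
  rw [Fintype.not_linearIndependent_iff] at hnl
  obtain ⟨g, hg, i0, hi0⟩ := hnl
  -- coordinates
  have hgk : ∀ k, ∑ i : T, g i * A i k = 0 := by
    intro k
    have := congrFun hg k
    simpa [Finset.sum_apply] using this
  set β : ℝ := ∑ i : T, g i * b i with hβ
  -- key: a sign choice
  have key : ∀ (g' : T → ℝ), (∀ k, ∑ i : T, g' i * A i k = 0) →
      0 ≤ ∑ i : T, g' i * b i → (0 < ∑ i : T, g' i * b i ∨ ∃ i, g' i < 0) → False := by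
    intro g' h0 hb hor
    -- choose the subset where g' > 0
    let U : Finset ι := T.filter (fun i => ∃ h : i ∈ T, 0 < g' ⟨i, h⟩)
    have hU : U ⊆ T := Finset.filter_subset _ _
    obtain ⟨S, hS, hSU⟩ := hT hU
    obtain ⟨c, hc⟩ := h𝒜 S hS
    have hmem : ∀ i : T, (0 < g' i ↔ b i ≤ ∑ k, A i k * c k) := by
      intro i
      have h1 : (i : ι) ∈ T ∩ S ↔ (i : ι) ∈ U := by rw [hSU]
      simp only [Finset.mem_inter, U, Finset.mem_filter, i.2, true_and] at h1
      rw [← hc, h1]
      constructor
      · intro h; exact ⟨trivial, h⟩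
      · rintro ⟨_, h⟩; exact h
    have hsum : ∑ i : T, g' i * (∑ k, A i k * c k - b i) = - ∑ i : T, g' i * b i := by
      have h2 : ∑ i : T, g' i * (∑ k, A i k * c k) = 0 := by
        calc ∑ i : T, g' i * (∑ k, A i k * c k)
            = ∑ i : T, ∑ k, g' i * A i k * c k := by
              refine Finset.sum_congr rfl fun i _ => ?_
              rw [Finset.mul_sum]
              refine Finset.sum_congr rfl fun k _ => by ring
          _ = ∑ k, ∑ i : T, g' i * A i k * c k := Finset.sum_comm
          _ = ∑ k, (∑ i : T, g' i * A i k) * c k := by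
              refine Finset.sum_congr rfl fun k _ => by rw [Finset.sum_mul]
          _ = 0 := Finset.sum_eq_zero fun k _ => by rw [h0 k, zero_mul]
      simp only [mul_sub, Finset.sum_sub_distrib, h2, zero_sub]
    have hterm : ∀ i : T, 0 ≤ g' i * (∑ k, A i k * c k - b i) := by
      intro i
      by_cases hp : 0 < g' i
      · have := (hmem i).1 hp
        exact mul_nonneg hp.le (by linarith)
      · have h3 : ¬ b i ≤ ∑ k, A i k * c k := fun h => hp ((hmem i).2 h)
        push Not at h3 hp
        exact mul_nonneg_of_nonpos_of_nonpos hp (by linarith)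
    rcases hor with hpos | ⟨i, hi⟩
    · have h4 : 0 ≤ ∑ i : T, g' i * (∑ k, A i k * c k - b i) :=
        Finset.sum_nonneg fun i _ => hterm i
      linarith
    · have h3 : ¬ b i ≤ ∑ k, A i k * c k := fun h => by
        have := (hmem i).2 h
        linarith
      push Not at h3
      have h5 : 0 < g' i * (∑ k, A i k * c k - b i) :=
        mul_pos_of_neg_of_neg hi (by linarith)
      have h4 : 0 < ∑ i : T, g' i * (∑ k, A i k * c k - b i) :=
        Finset.sum_pos' (fun i _ => hterm i) ⟨i, Finset.mem_univ _, h5⟩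
      linarith
  have hneg : ∀ k, ∑ i : T, (-g i) * A i k = 0 := by
    intro k
    simp only [neg_mul, Finset.sum_neg_distrib, hgk k, neg_zero]
  have hnegb : ∑ i : T, (-g i) * b i = -β := by
    simp only [neg_mul, Finset.sum_neg_distrib, hβ]
  rcases lt_trichotomy β 0 with h | h | h
  · exact key (fun i => - g i) hneg (by rw [hnegb]; linarith) (Or.inl (by rw [hnegb]; linarith))
  · rcases lt_or_gt_of_ne hi0 with h1 | h1
    · exact key g hgk (by rw [← hβ, h]) (Or.inr ⟨i0, h1⟩)
    · exact key (fun i => - g i) hneg (by rw [hnegb, h]; simp) (Or.inr ⟨i0, by linarith⟩)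
  · exact key g hgk (by rw [← hβ]; exact h.le) (Or.inl (by rw [← hβ]; exact h))

theorem sum_choose_le (n d : ℕ) : ∑ k ∈ Finset.Iic d, n.choose k ≤ (n + 1) ^ d := by
  have h : (n + 1) ^ d = ∑ k ∈ Finset.range (d + 1), n ^ k * d.choose k := by
    rw [add_pow]
    refine Finset.sum_congr rfl fun k _ => by simp
  rw [h]
  have h2 : Finset.Iic d = Finset.range (d + 1) := by
    ext x; simp
  rw [h2]
  refine Finset.sum_le_sum fun k hk => ?_
  have h3 : 1 ≤ d.choose k := Nat.choose_pos (by simpa [Nat.lt_succ_iff] using hk)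
  calc n.choose k ≤ n ^ k := Nat.choose_le_pow n k
    _ = n ^ k * 1 := (mul_one _).symm
    _ ≤ n ^ k * d.choose k := Nat.mul_le_mul_left _ h3

/-- The number of sign patterns of `card ι` affine functionals in `card κ` variables. -/
theorem patterns_card {ι κ : Type*} [Fintype ι] [DecidableEq ι] [Fintype κ]
    (A : ι → κ → ℝ) (b : ι → ℝ) (𝒜 : Finset (Finset ι))
    (h𝒜 : ∀ S ∈ 𝒜, ∃ c : κ → ℝ, ∀ i, i ∈ S ↔ b i ≤ ∑ k, A i k * c k) :
    𝒜.card ≤ (Fintype.card ι + 1) ^ Fintype.card κ := by
  classical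
  have h1 := Finset.card_le_card_shatterer 𝒜
  have h2 := Finset.card_shatterer_le_sum_vcDim (𝒜 := 𝒜)
  have h3 : 𝒜.vcDim ≤ Fintype.card κ := by
    unfold Finset.vcDim
    refine Finset.sup_le fun T hT => ?_
    exact shatter_card A b 𝒜 h𝒜 T (Finset.mem_shatterer.1 hT)
  calc 𝒜.card ≤ ∑ k ∈ Finset.Iic 𝒜.vcDim, (Fintype.card ι).choose k := h1.trans h2
    _ ≤ ∑ k ∈ Finset.Iic (Fintype.card κ), (Fintype.card ι).choose k :=
        Finset.sum_le_sum_of_subset (Finset.Iic_subset_Iic.2 h3)
    _ ≤ _ := sum_choose_le _ _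

/-- Property B: a family of fewer than `2 ^ (r - 1)` sets of size at least `r` has a two-colouring
without monochromatic member. -/
theorem propB {V : Type*} [Fintype V] [DecidableEq V] (𝒮 : Finset (Finset V)) (r : ℕ)
    (hr : 1 ≤ r) (hS : ∀ S ∈ 𝒮, r ≤ S.card) (hc : 𝒮.card < 2 ^ (r - 1)) :
    ∃ φ : V → Bool, ∀ S ∈ 𝒮, ∀ b : Bool, ∃ v ∈ S, φ v ≠ b := by
  classical
  by_contra hcon
  push Not at hcon
  -- every colouring is constant on some member
  have hcov : (Finset.univ : Finset (V → Bool)) ⊆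
      (𝒮 ×ˢ (Finset.univ : Finset Bool)).biUnion
        (fun p => Fintype.piFinset (fun v => if v ∈ p.1 then {p.2} else Finset.univ)) := by
    intro φ _
    obtain ⟨S, hS', b, hb⟩ := hcon φ
    simp only [Finset.mem_biUnion, Finset.mem_product, Finset.mem_univ, and_true]
    refine ⟨(S, b), hS', ?_⟩
    rw [Fintype.mem_piFinset]
    intro v
    by_cases hv : v ∈ S
    · simp [hv, hb v hv]
    · simp [hv]
  have hcard := Finset.card_le_card hcov
  have hle := Finset.card_biUnion_le (s := 𝒮 ×ˢ (Finset.univ : Finset Bool))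
    (t := fun p => Fintype.piFinset (fun v => if v ∈ p.1 then ({p.2} : Finset Bool) else Finset.univ))
  have hone : ∀ p ∈ 𝒮 ×ˢ (Finset.univ : Finset Bool),
      (Fintype.piFinset (fun v => if v ∈ p.1 then ({p.2} : Finset Bool) else Finset.univ)).card
        ≤ 2 ^ (Fintype.card V - r) := by
    intro p hp
    have hpS : p.1 ∈ 𝒮 := (Finset.mem_product.1 hp).1
    rw [Fintype.card_piFinset]
    have h1 : ∏ v : V, (if v ∈ p.1 then ({p.2} : Finset Bool) else Finset.univ).card
        = ∏ v : V, (if v ∈ p.1 then 1 else 2) := by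
      refine Finset.prod_congr rfl fun v _ => ?_
      split_ifs <;> simp
    rw [h1, Finset.prod_ite]
    simp only [Finset.prod_const_one, one_mul, Finset.prod_const]
    refine Nat.pow_le_pow_right (by norm_num) ?_
    have h2 : (Finset.univ.filter (fun v => ¬ v ∈ p.1)).card = Fintype.card V - p.1.card := by
      have : Finset.univ.filter (fun v => ¬ v ∈ p.1) = p.1ᶜ := by ext; simp
      rw [this, Finset.card_compl]
    rw [h2]
    have := hS _ hpS
    omega
  have hsum := Finset.sum_le_card_nsmul _ _ _ hone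
  rw [Finset.card_univ, Fintype.card_fun, Fintype.card_bool] at hcard
  rw [Finset.card_product, Finset.card_univ, Fintype.card_bool, smul_eq_mul] at hsum
  have htot : 2 ^ Fintype.card V ≤ 𝒮.card * 2 * 2 ^ (Fintype.card V - r) :=
    hcard.trans (hle.trans hsum)
  by_cases hem : 𝒮.card = 0
  · rw [hem] at htot
    simp at htot
  · obtain ⟨S, hS'⟩ := Finset.card_pos.1 (Nat.pos_of_ne_zero hem)
    have hrV : r ≤ Fintype.card V := (hS S hS').trans (Finset.card_le_univ S)
    have h5 : 𝒮.card * 2 * 2 ^ (Fintype.card V - r) < 2 ^ (r - 1) * 2 * 2 ^ (Fintype.card V - r) := by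
      have : 0 < 2 ^ (Fintype.card V - r) := by positivity
      nlinarith
    have h6 : 2 ^ (r - 1) * 2 * 2 ^ (Fintype.card V - r) = 2 ^ Fintype.card V := by
      rw [← pow_succ, ← pow_add]
      congr 1
      omega
    omega

end TLP
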