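import Pool.Agent.TLP.Pat
import Pool.Agent.TLP.Lag

namespace TLP

open Finset Polynomial

theorem growth (E k : ℕ) : ∃ R : ℕ, 1 ≤ R ∧ (E * R ^ 2) ^ k < 2 ^ (R - 1) := by
  have h := tendsto_pow_const_mul_const_pow_of_abs_lt_one (2 * k) (r := (1 / 2 : ℝ))
    (by rw [abs_of_pos] <;> norm_num)
  have hpos : (0 : ℝ) < 1 / (2 * ((E : ℝ) + 1) ^ k) := by positivity
  have h1 := (h.eventually (gt_mem_nhds hpos)).and (Filter.eventually_ge_atTop 1)
  obtain ⟨R, hR, hR1⟩ := h1.exists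
  refine ⟨R, hR1, ?_⟩
  have h2 : (R : ℝ) ^ (2 * k) * (2 * ((E : ℝ) + 1) ^ k) < 2 ^ R := by
    rw [lt_div_iff₀ (by positivity)] at hR
    have h3 : ((1 : ℝ) / 2) ^ R * 2 ^ R = 1 := by rw [← mul_pow]; norm_num
    have h4 : (0 : ℝ) < 2 ^ R := by positivity
    calc (R : ℝ) ^ (2 * k) * (2 * ((E : ℝ) + 1) ^ k)
        = (R : ℝ) ^ (2 * k) * (1 / 2) ^ R * (2 * ((E : ℝ) + 1) ^ k) * 2 ^ R := by
          rw [show (R : ℝ) ^ (2 * k) * (1 / 2) ^ R * (2 * ((E : ℝ) + 1) ^ k) * 2 ^ R
            = (R : ℝ) ^ (2 * k) * (2 * ((E : ℝ) + 1) ^ k) * ((1 / 2) ^ R * 2 ^ R) by ring, h3]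
          ring
      _ < 1 * 2 ^ R := mul_lt_mul_of_pos_right hR h4
      _ = 2 ^ R := one_mul _
  have h5 : ((E * R ^ 2) ^ k : ℕ) * 2 < 2 ^ R := by
    have : (((E * R ^ 2) ^ k * 2 : ℕ) : ℝ) < ((2 ^ R : ℕ) : ℝ) := by
      push_cast
      calc ((E : ℝ) * R ^ 2) ^ k * 2 ≤ (((E : ℝ) + 1) * R ^ 2) ^ k * 2 := by
            gcongr; linarith
        _ = (R : ℝ) ^ (2 * k) * (2 * ((E : ℝ) + 1) ^ k) := by
            rw [mul_pow, ← pow_mul]; ring
        _ < 2 ^ R := h2
    exact_mod_cast this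
  have h6 : 2 ^ R = 2 ^ (R - 1) * 2 := by
    rw [← pow_succ]; congr 1; omega
  omega

/-- value at `j / W` of the interpolation polynomial with node values `c` -/
noncomputable def val (s W : ℕ) (c : ℕ → ℝ) (j : ℕ) : ℝ :=
  ∑ l ∈ range (s + 1), c l * (lam s l).eval ((j : ℝ) / W)

/-- the cell visited at time `j` -/
noncomputable def cell (m s W R : ℕ) (c : Fin m → ℕ → ℝ) (j : ℕ) : Fin m → ZMod R :=
  fun i => ((⌊(R : ℝ) * val s W (c i) j⌋ : ℤ) : ZMod R)

theorem exists_phi (m s w0 b0 : ℕ) : ∃ R : ℕ, 1 ≤ R ∧ ∃ φ : (Fin m → ZMod R) → Bool,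
    ∀ (c : Fin m → ℕ → ℝ),
      (∀ i, ∀ j ≤ s * (R * w0 + 1), |(R : ℝ) * val s (R * w0 + 1) (c i) j| ≤ R * b0) →
      (∃ i, ∀ r : ZMod R, ∃ j ≤ s * (R * w0 + 1), cell m s (R * w0 + 1) R c j i = r) →
      ∀ b : Bool, ∃ j ≤ s * (R * w0 + 1), φ (cell m s (R * w0 + 1) R c j) ≠ b := by
  classical
  obtain ⟨R, hR, hgrow⟩ := growth (m * (s * (w0 + 1) + 1) * (2 * b0 + 1) + 1) (m * (s + 1))
  have : NeZero R := ⟨by omega⟩
  refine ⟨R, hR, ?_⟩
  set W := R * w0 + 1 with hW
  set n := s * W with hn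
  set B := R * b0 with hB
  -- the visited set
  let vis : (Fin m → ℕ → ℝ) → Finset (Fin m → ZMod R) := fun c =>
    (range (n + 1)).image (cell m s W R c)
  let good : (Fin m → ℕ → ℝ) → Prop := fun c =>
    (∀ i, ∀ j ≤ n, |(R : ℝ) * val s W (c i) j| ≤ B) ∧ R ≤ (vis c).card
  let 𝒮 : Finset (Finset (Fin m → ZMod R)) := univ.filter (fun S => ∃ c, good c ∧ vis c = S)
  -- patterns
  let pat : (Fin m → ℕ → ℝ) → Finset (Fin m × Fin (n + 1) × Fin (2 * B + 1)) := fun c =>
    univ.filter (fun p => (((p.2.2 : ℕ) : ℝ) - B) ≤ (R : ℝ) * val s W (c p.1) p.2.1)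
  have hpat : ∀ c c', good c → good c' → pat c = pat c' → vis c = vis c' := by
    intro c c' hc hc' hp
    have hfl : ∀ i, ∀ j ≤ n, ⌊(R : ℝ) * val s W (c i) j⌋ = ⌊(R : ℝ) * val s W (c' i) j⌋ := by
      intro i j hj
      have key : ∀ c1 c2 : Fin m → ℕ → ℝ, good c1 → pat c1 = pat c2 →
          ⌊(R : ℝ) * val s W (c1 i) j⌋ ≤ ⌊(R : ℝ) * val s W (c2 i) j⌋ := by
        intro c1 c2 h1 h12
        have hb := abs_le.1 (h1.1 i j hj)
        set z := ⌊(R : ℝ) * val s W (c1 i) j⌋ with hz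
        have hz1 : -(B : ℤ) ≤ z := by
          rw [hz, Int.le_floor]; push_cast; exact hb.1
        have hz2 : z ≤ B := by
          have : (z : ℝ) ≤ (B : ℝ) := (Int.floor_le _).trans hb.2
          exact_mod_cast this
        obtain ⟨t, ht⟩ : ∃ t : ℕ, (t : ℤ) = z + B := ⟨(z + B).toNat, by omega⟩
        have htlt : t < 2 * B + 1 := by omega
        have hmem : (i, (⟨j, by omega⟩ : Fin (n + 1)), (⟨t, htlt⟩ : Fin (2 * B + 1))) ∈ pat c1 := by
          simp only [pat, mem_filter, mem_univ, true_and]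
          have h5 : ((t : ℝ) - B) = (z : ℝ) := by
            have : ((t : ℤ) : ℝ) = ((z + B : ℤ) : ℝ) := by rw [ht]
            push_cast at this
            linarith
          rw [h5]
          exact Int.floor_le _
        rw [h12] at hmem
        simp only [pat, mem_filter, mem_univ, true_and] at hmem
        have h5 : ((t : ℝ) - B) = (z : ℝ) := by
          have : ((t : ℤ) : ℝ) = ((z + B : ℤ) : ℝ) := by rw [ht]
          push_cast at this
          linarith
        rw [h5] at hmem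
        exact Int.le_floor.2 hmem
      exact le_antisymm (key c c' hc hp) (key c' c hc' hp.symm)
    simp only [vis]
    refine Finset.image_congr fun j hj => ?_
    have hj' : j ≤ n := by
      have := Finset.mem_coe.1 hj
      simpa [Nat.lt_succ_iff] using this
    funext i
    simp only [cell]
    rw [hfl i j hj']
  -- choose representatives
  have hrep : ∀ S ∈ 𝒮, ∃ c, good c ∧ vis c = S := fun S hS => (Finset.mem_filter.1 hS).2
  let rep : Finset (Fin m → ZMod R) → (Fin m → ℕ → ℝ) := fun S =>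
    if h : ∃ c, good c ∧ vis c = S then h.choose else fun _ _ => 0
  have hrep1 : ∀ S ∈ 𝒮, good (rep S) ∧ vis (rep S) = S := by
    intro S hS
    have h := hrep S hS
    simp only [rep, dif_pos h]
    exact h.choose_spec
  have hinj : Set.InjOn (fun S => pat (rep S)) (𝒮 : Set (Finset (Fin m → ZMod R))) := by
    intro S hS S' hS' hSS
    have h1 := hrep1 S hS
    have h2 := hrep1 S' hS'
    rw [← h1.2, ← h2.2]
    exact hpat _ _ h1.1 h2.1 hSS
  have hcard : 𝒮.card = (𝒮.image (fun S => pat (rep S))).card :=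
    (Finset.card_image_of_injOn hinj).symm
  have hbound := patterns_card (ι := Fin m × Fin (n + 1) × Fin (2 * B + 1))
    (κ := Fin m × Fin (s + 1))
    (fun p k => if k.1 = p.1 then (R : ℝ) * (lam s k.2).eval (((p.2.1 : ℕ) : ℝ) / W) else 0)
    (fun p => ((p.2.2 : ℕ) : ℝ) - B)
    (𝒮.image (fun S => pat (rep S))) (by
      intro T hT
      obtain ⟨S, _, rfl⟩ := Finset.mem_image.1 hT
      refine ⟨fun k => rep S k.1 k.2, fun p => ?_⟩
      simp only [pat, mem_filter, mem_univ, true_and]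
      have : (R : ℝ) * val s W (rep S p.1) p.2.1 = ∑ k : Fin m × Fin (s + 1),
          (if k.1 = p.1 then (R : ℝ) * (lam s k.2).eval (((p.2.1 : ℕ) : ℝ) / W) else 0)
            * rep S k.1 k.2 := by
        rw [Fintype.sum_prod_type]
        rw [Finset.sum_eq_single p.1]
        · simp only [if_true]
          unfold val
          rw [Finset.mul_sum, Finset.sum_range]
          refine Finset.sum_congr rfl fun l _ => by ring
        · intro i _ hi
          refine Finset.sum_eq_zero fun l _ => ?_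
          simp [hi]
        · intro h; exact absurd (Finset.mem_univ _) h
      rw [this])
  rw [← hcard] at hbound
  simp only [Fintype.card_prod, Fintype.card_fin] at hbound
  have hfin : 𝒮.card < 2 ^ (R - 1) := by
    refine (hbound.trans ?_).trans_lt hgrow
    refine Nat.pow_le_pow_left ?_ _
    -- m * ((n+1) * (2B+1)) + 1 ≤ E * R^2
    have h1 : n + 1 ≤ (s * (w0 + 1) + 1) * R := by
      rw [hn, hW]
      have : s * (R * w0 + 1) + 1 ≤ s * (R * w0 + R) + R := by
        have : s * (R * w0 + 1) ≤ s * (R * w0 + R) := Nat.mul_le_mul_left _ (by omega)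
        omega
      calc s * (R * w0 + 1) + 1 ≤ s * (R * w0 + R) + R := this
        _ = (s * (w0 + 1) + 1) * R := by ring
    have h2 : 2 * B + 1 ≤ (2 * b0 + 1) * R := by
      rw [hB]
      calc 2 * (R * b0) + 1 ≤ 2 * (R * b0) + R := by omega
        _ = (2 * b0 + 1) * R := by ring
    have h3 : (n + 1) * (2 * B + 1) ≤ (s * (w0 + 1) + 1) * R * ((2 * b0 + 1) * R) :=
      Nat.mul_le_mul h1 h2
    have h4 : 1 ≤ R ^ 2 := Nat.one_le_pow _ _ (by omega)
    calc m * ((n + 1) * (2 * B + 1)) + 1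
        ≤ m * ((s * (w0 + 1) + 1) * R * ((2 * b0 + 1) * R)) + R ^ 2 := by
          have := Nat.mul_le_mul_left m h3
          omega
      _ = (m * (s * (w0 + 1) + 1) * (2 * b0 + 1) + 1) * R ^ 2 := by ring
  obtain ⟨φ, hφ⟩ := propB 𝒮 R hR (fun S hS => by
    have := hrep1 S hS
    rw [← this.2]
    exact this.1.2) hfin
  refine ⟨φ, fun c hb hsurj b => ?_⟩
  have hgood : good c := by
    refine ⟨fun i j hj => ?_, ?_⟩
    · have := hb i j hj
      rw [hB]; push_cast; exact this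
    · obtain ⟨i, hi⟩ := hsurj
      have h1 : (univ : Finset (ZMod R)) ⊆ (vis c).image (fun v => v i) := by
        intro r _
        obtain ⟨j, hj, hjr⟩ := hi r
        rw [Finset.mem_image]
        exact ⟨cell m s W R c j, Finset.mem_image.2 ⟨j, by simp; omega, rfl⟩, hjr⟩
      have h2 := Finset.card_le_card h1
      rw [Finset.card_univ, ZMod.card] at h2
      exact h2.trans Finset.card_image_le
  have hS : vis c ∈ 𝒮 := Finset.mem_filter.2 ⟨Finset.mem_univ _, c, hgood, rfl⟩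
  obtain ⟨v, hv, hvb⟩ := hφ _ hS b
  obtain ⟨j, hj, rfl⟩ := Finset.mem_image.1 hv
  exact ⟨j, by simpa [Nat.lt_succ_iff] using hj, hvb⟩

end TLP
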